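import Pool.Agent.W2helper70.IW.Tie

set_option autoImplicit false

/-!
At least `n ^ (1 - o (1))` weight functions are needed for polynomially bounded weights, continued.
-/

namespace Pool.Agent.W2helper70.IW

open Finset

variable {V : Type}

theorem Nice.symm {G : SimpleGraph V} {X Y : Finset V} (h : Nice G X Y) : Nice G Y X := by
  refine ⟨fun x y hxy => (h.adj x y hxy).symm, h.deg, ?_⟩
  obtain ⟨M, hM, hu⟩ := h.pm
  exact ⟨M, hM, fun v hv => hu v hv.symm⟩

/-- potentials along a path -/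
def pot (i : ℕ) (x : ℕ → ℤ) (k : ℕ) : ℤ := -(-1) ^ k * ∑ m ∈ Ico i k, (-1) ^ m * x m

theorem pot_self (i : ℕ) (x : ℕ → ℤ) : pot i x i = 0 := by
  simp [pot]

theorem pot_add {i k : ℕ} (x : ℕ → ℤ) (h : i ≤ k) : pot i x k + pot i x (k + 1) = x k := by
  have h1 : ((-1 : ℤ) ^ k) * (-1) ^ k = 1 := by
    rw [← pow_add, ← two_mul, pow_mul]; norm_num
  unfold pot
  rw [sum_Ico_succ_top h, pow_succ]
  linear_combination x k * h1

theorem block_exists {l B : ℕ} (hl : 1 ≤ l) (hB : B < 2 ^ (l ^ 2)) {w : Sym2 V → ℕ} (hw : ∀ e, w e ≤ B)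
    {X Y : Finset V} (hXY : Disjoint X Y) (hX : X.card = 2 ^ (3 * l + 2)) (hY : Y.card = 2 ^ (3 * l + 2)) :
    ∃ G, Nice G X Y ∧ Tie w G := by
  classical
  obtain ⟨K, hK⟩ : ∃ K, K = 2 ^ (3 * l + 2) := ⟨_, rfl⟩
  obtain ⟨r, hr⟩ : ∃ r, r = 2 ^ (2 * l + 2) := ⟨_, rfl⟩
  have hKpos : 0 < K := by rw [hK]; positivity
  have hrpos : 0 < r := by rw [hr]; positivity
  rw [← hK] at hX hY
  set fX : ℕ → V := fun n => ((X.equivFinOfCardEq hX).symm ⟨n % K, Nat.mod_lt _ hKpos⟩ : V) with hfX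
  set fY : ℕ → V := fun n => ((Y.equivFinOfCardEq hY).symm ⟨n % K, Nat.mod_lt _ hKpos⟩ : V) with hfY
  have hfXm : ∀ n, fX n ∈ X := fun n => ((X.equivFinOfCardEq hX).symm _).2
  have hfYm : ∀ n, fY n ∈ Y := fun n => ((Y.equivFinOfCardEq hY).symm _).2
  have hfXi : ∀ a b, a < K → b < K → fX a = fX b → a = b := by
    intro a b ha hb hab
    have h1 := (X.equivFinOfCardEq hX).symm.injective (Subtype.ext hab)
    have h2 := congrArg Fin.val h1
    simpa only [Nat.mod_eq_of_lt ha, Nat.mod_eq_of_lt hb] using h2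
  have hfYi : ∀ a b, a < K → b < K → fY a = fY b → a = b := by
    intro a b ha hb hab
    have h1 := (Y.equivFinOfCardEq hY).symm.injective (Subtype.ext hab)
    have h2 := congrArg Fin.val h1
    simpa only [Nat.mod_eq_of_lt ha, Nat.mod_eq_of_lt hb] using h2
  set v : ℕ → Fin r → V := fun k x => if Even k then fX (k / 2 * r + x) else fY (k / 2 * r + x) with hv
  have hidx : ∀ k ≤ 2 ^ l, ∀ x : Fin r, k / 2 * r + x < K := by
    intro k hk x
    obtain ⟨l', rfl⟩ : ∃ l', l = l' + 1 := ⟨l - 1, by omega⟩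
    have h1 : k / 2 ≤ 2 ^ l' := by
      rw [pow_succ] at hk
      omega
    have h2 : 2 ^ l' * r = 2 ^ (3 * (l' + 1) + 1) := by
      rw [hr, ← pow_add]
      congr 1
      omega
    have h3 : r ≤ 2 ^ (3 * (l' + 1) + 1) := by
      rw [hr]
      exact Nat.pow_le_pow_right (by norm_num) (by omega)
    have h4 : K = 2 ^ (3 * (l' + 1) + 1) + 2 ^ (3 * (l' + 1) + 1) := by
      rw [hK, pow_succ]
      ring
    calc k / 2 * r + x < k / 2 * r + r := by have := x.2; omega
      _ ≤ 2 ^ l' * r + r := by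
          have := Nat.mul_le_mul_right r h1
          omega
      _ ≤ K := by rw [h2, h4]; omega
  have hvinj : ∀ k k' : ℕ, k ≤ 2 ^ l → k' ≤ 2 ^ l → ∀ x x' : Fin r, v k x = v k' x' → k = k' ∧ x = x' := by
    intro k k' hk hk' x x' hvv
    have key : ∀ a b : ℕ, a * r + x = b * r + x' → a = b ∧ x = x' := by
      intro a b hab
      have h1 : a = b := by
        have h2 : (a * r + x) / r = a := by
          rw [Nat.add_comm, Nat.add_mul_div_right _ _ hrpos, Nat.div_eq_of_lt x.2, Nat.zero_add]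
        have h3 : (b * r + x') / r = b := by
          rw [Nat.add_comm, Nat.add_mul_div_right _ _ hrpos, Nat.div_eq_of_lt x'.2, Nat.zero_add]
        rw [← h2, hab, h3]
      subst h1
      exact ⟨rfl, Fin.ext (by omega)⟩
    simp only [hv] at hvv
    by_cases h1 : Even k
    · by_cases h2 : Even k'
      · rw [if_pos h1, if_pos h2] at hvv
        have h3 := key _ _ (hfXi _ _ (hidx k hk x) (hidx k' hk' x') hvv)
        rw [Nat.even_iff] at h1 h2
        exact ⟨by omega, h3.2⟩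
      · rw [if_pos h1, if_neg h2] at hvv
        exact (disjoint_left.1 hXY (hfXm _) (hvv ▸ hfYm _)).elim
    · by_cases h2 : Even k'
      · rw [if_neg h1, if_pos h2] at hvv
        exact (disjoint_left.1 hXY (hfXm _) (hvv.symm ▸ hfYm _)).elim
      · rw [if_neg h1, if_neg h2] at hvv
        have h3 := key _ _ (hfYi _ _ (hidx k hk x) (hidx k' hk' x') hvv)
        rw [Nat.not_even_iff_odd, Nat.odd_iff] at h1 h2
        exact ⟨by omega, h3.2⟩
  have hvX : ∀ k x, Even k → v k x ∈ X := by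
    intro k x hk
    simp only [hv, if_pos hk]
    exact hfXm _
  have hvY : ∀ k x, ¬ Even k → v k x ∈ Y := by
    intro k x hk
    simp only [hv, if_neg hk]
    exact hfYm _
  have hbig : (2 * (2 ^ l * B) + 1) * (2 ^ l) ^ l < r ^ l := by
    have h1 : r ^ l = 2 ^ (2 * l + l ^ 2) * (2 ^ l) ^ l := by
      rw [hr, ← pow_mul, ← pow_mul, ← pow_add]
      congr 1
      ring
    rw [h1]
    refine Nat.mul_lt_mul_of_pos_right ?_ (by positivity)
    have h2 : 2 ^ (2 * l + l ^ 2) = 2 ^ l * (2 ^ l * 2 ^ (l ^ 2)) := by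
      rw [← pow_add, ← pow_add]
      congr 1
      ring
    have h3 : 2 ≤ 2 ^ l := by
      calc 2 = 2 ^ 1 := rfl
        _ ≤ 2 ^ l := Nat.pow_le_pow_right (by norm_num) hl
    have h4 : 2 ^ l * B + 1 ≤ 2 ^ l * 2 ^ (l ^ 2) := by
      have : 2 ^ l * (B + 1) ≤ 2 ^ l * 2 ^ (l ^ 2) := Nat.mul_le_mul_left _ hB
      rw [mul_add, mul_one] at this
      omega
    rw [h2]
    calc 2 * (2 ^ l * B) + 1 < 2 * (2 ^ l * B + 1) := by omega
      _ ≤ 2 ^ l * (2 ^ l * 2 ^ (l ^ 2)) := Nat.mul_le_mul h3 h4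
  obtain ⟨i, j, hij, hj, p, p', hpi, hpj, hpne, hsum⟩ := collide (l := l) (B := B) hrpos
    (fun k x y => (-1) ^ k * (w s(v k x, v (k + 1) y) : ℤ)) (by
      intro k x y
      rw [abs_mul, abs_pow, abs_neg, abs_one, one_pow, one_mul, Nat.abs_cast]
      exact_mod_cast hw _) hbig
  obtain ⟨h, hh⟩ : ∃ h, j = i + h := ⟨j - i, by omega⟩
  subst hh
  set C : ℕ → V := fun t => if t ≤ h then v (i + t) (p (i + t)) else v (i + 2 * h - t) (p' (i + 2 * h - t)) with hCdef
  have hC1 : ∀ t ≤ h, C t = v (i + t) (p (i + t)) := fun t ht => by simp only [hCdef, if_pos ht]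
  have hC2 : ∀ t, h ≤ t → t ≤ 2 * h → C t = v (i + 2 * h - t) (p' (i + 2 * h - t)) := by
    intro t ht ht'
    by_cases hth : t ≤ h
    · have : t = h := by omega
      subst this
      rw [hC1 t le_rfl, show i + 2 * t - t = i + t by omega, hpj]
    · simp only [hCdef, if_neg hth]
  have hCinj : ∀ a b, a < 2 * h → b < 2 * h → C a = C b → a = b := by
    have key : ∀ a b, a ≤ h → h < b → b < 2 * h → C a ≠ C b := by
      intro a b ha hb hb' hab
      rw [hC1 a ha, hC2 b hb.le hb'.le] at hab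
      obtain ⟨h1, h2⟩ := hvinj _ _ (by omega) (by omega) _ _ hab
      rw [h1] at h2
      exact hpne _ (by omega) (by omega) h2
    intro a b ha hb hab
    by_cases ha' : a ≤ h
    · by_cases hb' : b ≤ h
      · rw [hC1 a ha', hC1 b hb'] at hab
        have := (hvinj _ _ (by omega) (by omega) _ _ hab).1
        omega
      · exact (key a b ha' (by omega) hb hab).elim
    · by_cases hb' : b ≤ h
      · exact (key b a hb' (by omega) ha hab.symm).elim
      · rw [hC2 a (by omega) ha.le, hC2 b (by omega) hb.le] at hab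
        have := (hvinj _ _ (by omega) (by omega) _ _ hab).1
        omega
  have hC0 : C (2 * h) = C 0 := by
    rw [hC2 _ (by omega) le_rfl, hC1 0 (by omega), show i + 2 * h - 2 * h = i by omega, add_zero, hpi]
  set x : ℕ → ℤ := fun k => (w s(v k (p k), v (k + 1) (p (k + 1))) : ℤ) with hx
  set x' : ℕ → ℤ := fun k => (w s(v k (p' k), v (k + 1) (p' (k + 1))) : ℤ) with hx'
  set f : ℕ → ℤ := fun t => if t ≤ h then pot i x (i + t) else pot i x' (i + 2 * h - t) with hfdef
  have hf1 : ∀ t ≤ h, f t = pot i x (i + t) := fun t ht => by simp only [hfdef, if_pos ht]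
  have hpotj : pot i x (i + h) = pot i x' (i + h) := by
    unfold pot
    rw [hsum]
  have hf2 : ∀ t, h ≤ t → t ≤ 2 * h → f t = pot i x' (i + 2 * h - t) := by
    intro t ht ht'
    by_cases hth : t ≤ h
    · have : t = h := by omega
      subst this
      rw [hf1 t le_rfl, show i + 2 * t - t = i + t by omega, hpotj]
    · simp only [hfdef, if_neg hth]
  have hf : ∀ t < 2 * h, f t + f (t + 1) = w s(C t, C (t + 1)) := by
    intro t ht
    by_cases hth : t < h
    · rw [hf1 t hth.le, hf1 (t + 1) hth, hC1 t hth.le, hC1 (t + 1) hth, ← add_assoc, pot_add x (by omega)]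
    · rw [hf2 t (by omega) ht.le, hf2 (t + 1) (by omega) ht, hC2 t (by omega) ht.le, hC2 (t + 1) (by omega) ht]
      obtain ⟨k, hk⟩ : ∃ k, i + 2 * h - t = k + 1 ∧ i + 2 * h - (t + 1) = k ∧ i ≤ k :=
        ⟨i + 2 * h - (t + 1), by omega, rfl, by omega⟩
      rw [hk.1, hk.2.1, add_comm, pot_add x' hk.2.2, Sym2.eq_swap]
  have hf0 : f (2 * h) = f 0 := by
    rw [hf2 _ (by omega) le_rfl, hf1 0 (by omega), show i + 2 * h - 2 * h = i by omega, add_zero, pot_self, pot_self]
  have hside : ∀ t ≤ 2 * h, ∃ k z, C t = v k z ∧ (Even k ↔ (Even i ↔ Even t)) := by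
    intro t ht
    by_cases hth : t ≤ h
    · refine ⟨i + t, p (i + t), hC1 t hth, ?_⟩
      rw [Nat.even_add]
    · refine ⟨i + 2 * h - t, p' (i + 2 * h - t), hC2 t (by omega) ht, ?_⟩
      rw [Nat.even_sub (by omega), Nat.even_add]
      simp
  have hfinish : ∀ X' Y' : Finset V, X' ⊆ X → Y' ⊆ Y → X'.card = h → Y'.card = h → Nice (ring C h) X' Y' →
      Tie w (ring C h) → ∃ G, Nice G X Y ∧ Tie w G := by
    intro X' Y' hXX hYY hcX hcY hN hT
    obtain ⟨G, hG⟩ := nice_exists (K - h) (X \ X') (Y \ Y')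
      (hXY.mono sdiff_subset sdiff_subset) (by rw [card_sdiff_of_subset hXX, hX, hcX])
      (by rw [card_sdiff_of_subset hYY, hY, hcY])
    have hdis : ∀ u, u ∈ X' ∨ u ∈ Y' → u ∈ X \ X' ∨ u ∈ Y \ Y' → False := by
      intro u hu hu'
      simp only [mem_sdiff] at hu'
      rcases hu with hu | hu <;> rcases hu' with hu' | hu'
      · exact hu'.2 hu
      · exact disjoint_left.1 hXY (hXX hu) hu'.1
      · exact disjoint_left.1 hXY hu'.1 (hYY hu)
      · exact hu'.2 hu
    have hNs := hN.sup hG hdis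
    rw [union_sdiff_of_subset hXX, union_sdiff_of_subset hYY] at hNs
    exact ⟨_, hNs, hT.sup fun a u u' hu hu' => hdis a (hN.mem_left hu) (hG.mem_left hu')⟩
  by_cases hi : Even i
  · obtain ⟨X', Y', hXX, hYY, hcX, hcY, hN, hT⟩ := block (w := w) (by omega) hCinj hC0 f hf hf0 (X := X) (Y := Y) (by
      intro t ht
      obtain ⟨k, z, hk, hk'⟩ := hside (2 * t) (by omega)
      rw [hk]
      exact hvX k z (hk'.2 (by simp [hi]))) (by
      intro t ht
      obtain ⟨k, z, hk, hk'⟩ := hside (2 * t + 1) (by omega)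
      rw [hk]
      exact hvY k z (fun he => by
        have := hk'.1 he
        simp [hi] at this))
    exact hfinish X' Y' hXX hYY hcX hcY hN hT
  · obtain ⟨Y', X', hYY, hXX, hcY, hcX, hN, hT⟩ := block (w := w) (by omega) hCinj hC0 f hf hf0 (X := Y) (Y := X) (by
      intro t ht
      obtain ⟨k, z, hk, hk'⟩ := hside (2 * t) (by omega)
      rw [hk]
      exact hvY k z (fun he => by
        have := hk'.1 he
        simp [hi] at this)) (by
      intro t ht
      obtain ⟨k, z, hk, hk'⟩ := hside (2 * t + 1) (by omega)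
      rw [hk]
      exact hvX k z (hk'.2 (by simp [hi])))
    exact hfinish X' Y' hXX hYY hcX hcY hN.symm hT

theorem all_tie {ι : Type} {l B : ℕ} (hl : 1 ≤ l) (hB : B < 2 ^ (l ^ 2)) (W : ι → Sym2 V → ℕ)
    (hW : ∀ t e, W t e ≤ B) (A : Finset ι) :
    ∀ (r : ℕ) (X Y : Finset V), Disjoint X Y → X.card = r → Y.card = r → A.card * 2 ^ (3 * l + 2) ≤ r →
      ∃ G, Nice G X Y ∧ ∀ t ∈ A, Tie (W t) G := by
  classical
  induction A using Finset.induction_on with
  | empty =>
    intro r X Y hXY hX hY _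
    obtain ⟨G, hG⟩ := nice_exists r X Y hXY hX hY
    exact ⟨G, hG, fun t ht => by simp at ht⟩
  | insert t A ht ih =>
    intro r X Y hXY hX hY hr
    rw [card_insert_of_notMem ht, add_mul, one_mul] at hr
    obtain ⟨X₁, hX₁, hcX⟩ := exists_subset_card_eq (s := X) (n := 2 ^ (3 * l + 2)) (by omega)
    obtain ⟨Y₁, hY₁, hcY⟩ := exists_subset_card_eq (s := Y) (n := 2 ^ (3 * l + 2)) (by omega)
    obtain ⟨G₁, hG₁, hT₁⟩ := block_exists hl hB (hW t) (hXY.mono hX₁ hY₁) hcX hcY
    obtain ⟨G₂, hG₂, hT₂⟩ := ih (r - 2 ^ (3 * l + 2)) (X \ X₁) (Y \ Y₁) (hXY.mono sdiff_subset sdiff_subset)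
      (by rw [card_sdiff_of_subset hX₁, hX, hcX]) (by rw [card_sdiff_of_subset hY₁, hY, hcY]) (by omega)
    have hdis : ∀ u, u ∈ X₁ ∨ u ∈ Y₁ → u ∈ X \ X₁ ∨ u ∈ Y \ Y₁ → False := by
      intro u hu hu'
      simp only [mem_sdiff] at hu'
      rcases hu with hu | hu <;> rcases hu' with hu' | hu'
      · exact hu'.2 hu
      · exact disjoint_left.1 hXY (hX₁ hu) hu'.1
      · exact disjoint_left.1 hXY hu'.1 (hY₁ hu)
      · exact hu'.2 hu
    have hN := hG₁.sup hG₂ hdis
    rw [union_sdiff_of_subset hX₁, union_sdiff_of_subset hY₁] at hN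
    refine ⟨_, hN, fun t' ht' => ?_⟩
    rcases mem_insert.1 ht' with rfl | ht'
    · exact hT₁.sup fun a u u' hu hu' => hdis a (hG₁.mem_left hu) (hG₂.mem_left hu')
    · rw [sup_comm]
      exact (hT₂ t' ht').sup fun a u u' hu hu' => hdis a (hG₁.mem_left hu') (hG₂.mem_left hu)

theorem many {n B T l : ℕ} (hl : 1 ≤ l) (hB : B < 2 ^ (l ^ 2)) (W : Fin T → Sym2 (Fin (2 * n)) → ℕ)
    (hW : ∀ t e, W t e ≤ B)
    (h : ∀ G : SimpleGraph (Fin (2 * n)), G.IsBipartite → (∀ v, (G.neighborSet v).ncard ≤ 2) → (∃ M, IsPM G M) →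
      ∃ t, Isolates (W t) G) : n < T * 2 ^ (3 * l + 2) := by
  classical
  by_contra hno
  push Not at hno
  obtain ⟨L, -, hL⟩ := exists_subset_card_eq (s := (univ : Finset (Fin (2 * n)))) (n := n) (by
    rw [card_univ, Fintype.card_fin]; omega)
  have hR : Lᶜ.card = n := by
    rw [card_compl, Fintype.card_fin, hL]; omega
  obtain ⟨G, hG, htie⟩ := all_tie hl hB W hW univ n L Lᶜ disjoint_compl_right hL hR (by
    rw [card_univ, Fintype.card_fin]; exact hno)
  have hbip : G.IsBipartite := by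
    refine SimpleGraph.IsBipartiteWith.isBipartite (s := (L : Set (Fin (2 * n)))) (t := ((Lᶜ : Finset _) : Set _)) ?_
    refine ⟨?_, ?_⟩
    · rw [disjoint_coe]
      exact disjoint_compl_right
    · intro x y hxy
      exact hG.adj x y hxy
  have hdeg : ∀ v, (G.neighborSet v).ncard ≤ 2 := by
    intro v
    obtain ⟨x, y, hxy⟩ := hG.deg v
    calc (G.neighborSet v).ncard ≤ ({x, y} : Set (Fin (2 * n))).ncard :=
          Set.ncard_le_ncard (fun u hu => hxy u hu) (Set.toFinite _)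
      _ ≤ 2 := (Set.ncard_insert_le x {y}).trans (by rw [Set.ncard_singleton])
  have hpm : ∃ M, IsPM G M := by
    obtain ⟨M, hM, hu⟩ := hG.pm
    refine ⟨M, hM, fun v => hu v ?_⟩
    by_cases hv : v ∈ L
    · exact Or.inl hv
    · exact Or.inr (mem_compl.2 hv)
  obtain ⟨t, ht⟩ := h G hbip hdeg hpm
  exact not_isolates_of_tie (htie t (mem_univ t)) ht

end Pool.Agent.W2helper70.IW
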