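import Mathlib

set_option autoImplicit false

/-!
Weight functions which isolate perfect matchings: definitions and the greedy covering lemma.
-/

namespace Pool.Agent.W2helper70.IW

open Finset

/-- `M` is (the edge set of) a perfect matching of `G` -/
def IsPM {V : Type} (G : SimpleGraph V) (M : Finset (Sym2 V)) : Prop :=
  (∀ e ∈ M, e ∈ G.edgeSet) ∧ ∀ v, ∃! e, e ∈ M ∧ v ∈ e

/-- the weight function `w` isolates `G`: exactly one perfect matching of `G` has least weight -/
def Isolates {V : Type} (w : Sym2 V → ℕ) (G : SimpleGraph V) : Prop :=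
  ∃ M, IsPM G M ∧ ∀ M', IsPM G M' → M' ≠ M → ∑ e ∈ M, w e < ∑ e ∈ M', w e

/-- averaging -/
theorem exists_good {α β : Type} (A : Finset α) (C : Finset β) (μ : β → ℝ) (hμ : ∀ c ∈ C, 0 ≤ μ c)
    (hC : 0 < ∑ c ∈ C, μ c) (R : α → β → Prop) [∀ a c, Decidable (R a c)] (p : ℝ)
    (h : ∀ a ∈ A, p * ∑ c ∈ C, μ c ≤ ∑ c ∈ C with R a c, μ c) :
    ∃ c ∈ C, p * A.card ≤ ((A.filter fun a => R a c).card : ℝ) := by
  by_contra hcon
  push Not at hcon
  have h1 : ∑ a ∈ A, ∑ c ∈ C with R a c, μ c = ∑ c ∈ C, μ c * ((A.filter fun a => R a c).card : ℝ) := by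
    calc ∑ a ∈ A, ∑ c ∈ C with R a c, μ c = ∑ a ∈ A, ∑ c ∈ C, if R a c then μ c else 0 := by
          refine sum_congr rfl fun a _ => ?_
          rw [sum_filter]
      _ = ∑ c ∈ C, ∑ a ∈ A, if R a c then μ c else 0 := sum_comm
      _ = _ := by
          refine sum_congr rfl fun c _ => ?_
          rw [← sum_filter, sum_const, nsmul_eq_mul]
          ring
  have h2 : A.card * (p * ∑ c ∈ C, μ c) ≤ ∑ a ∈ A, ∑ c ∈ C with R a c, μ c := by
    rw [← nsmul_eq_mul, ← sum_const]
    exact sum_le_sum h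
  have h3 : ∑ c ∈ C, μ c * ((A.filter fun a => R a c).card : ℝ) < ∑ c ∈ C, μ c * (p * A.card) := by
    obtain ⟨c0, hc0, hpos⟩ : ∃ c ∈ C, 0 < μ c := by
      by_contra hno
      push Not at hno
      have := sum_nonpos hno
      linarith
    refine sum_lt_sum (fun c hc => mul_le_mul_of_nonneg_left (hcon c hc).le (hμ c hc)) ⟨c0, hc0, ?_⟩
    exact mul_lt_mul_of_pos_left (hcon c0 hc0) hpos
  rw [← sum_mul] at h3
  have h4 : A.card * (p * ∑ c ∈ C, μ c) = (∑ c ∈ C, μ c) * (p * A.card) := by ring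
  linarith

/-- greedy covering -/
theorem greedy {α β : Type} [Nonempty β] (A : Finset α) (C : Finset β) (μ : β → ℝ) (hμ : ∀ c ∈ C, 0 ≤ μ c)
    (hC : 0 < ∑ c ∈ C, μ c) (R : α → β → Prop) [∀ a c, Decidable (R a c)] (p : ℝ) (hp : p ≤ 1)
    (h : ∀ a ∈ A, p * ∑ c ∈ C, μ c ≤ ∑ c ∈ C with R a c, μ c) (T : ℕ) :
    ∃ f : Fin T → β, (∀ t, f t ∈ C) ∧
      (((A.filter fun a => ∀ t, ¬ R a (f t)).card : ℕ) : ℝ) ≤ A.card * (1 - p) ^ T := by
  classical
  induction T with
  | zero =>
    refine ⟨Fin.elim0, fun t => t.elim0, ?_⟩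
    rw [pow_zero, mul_one]
    exact_mod_cast card_filter_le _ _
  | succ T ih =>
    obtain ⟨f, hf, hle⟩ := ih
    obtain ⟨c, hc, hcp⟩ := exists_good (A.filter fun a => ∀ t, ¬ R a (f t)) C μ hμ hC R p
      (fun a ha => h a (mem_filter.1 ha).1)
    refine ⟨Fin.snoc f c, fun t => ?_, ?_⟩
    · refine Fin.lastCases ?_ (fun i => ?_) t
      · simpa using hc
      · simpa using hf i
    · have h1 : (A.filter fun a => ∀ t : Fin (T + 1), ¬ R a (Fin.snoc (α := fun _ => β) f c t)) =
          (A.filter fun a => ∀ t, ¬ R a (f t)).filter fun a => ¬ R a c := by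
        ext a
        simp only [mem_filter]
        constructor
        · rintro ⟨ha, hall⟩
          refine ⟨⟨ha, fun t => ?_⟩, ?_⟩
          · have := hall t.castSucc
            simpa using this
          · have := hall (Fin.last T)
            simpa using this
        · rintro ⟨⟨ha, hall⟩, hlast⟩
          refine ⟨ha, fun t => ?_⟩
          refine Fin.lastCases ?_ (fun i => ?_) t
          · simpa using hlast
          · simpa using hall i
      rw [h1]
      have h2 := card_filter_add_card_filter_not (s := A.filter fun a => ∀ t, ¬ R a (f t)) (fun a => R a c)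
      have h3 : ((((A.filter fun a => ∀ t, ¬ R a (f t)).filter fun a => R a c).card : ℕ) : ℝ) +
          ((((A.filter fun a => ∀ t, ¬ R a (f t)).filter fun a => ¬ R a c).card : ℕ) : ℝ) =
          (((A.filter fun a => ∀ t, ¬ R a (f t)).card : ℕ) : ℝ) := by exact_mod_cast h2
      have h4 : ((((A.filter fun a => ∀ t, ¬ R a (f t)).filter fun a => ¬ R a c).card : ℕ) : ℝ) ≤
          (1 - p) * (((A.filter fun a => ∀ t, ¬ R a (f t)).card : ℕ) : ℝ) := by linarith
      calc ((((A.filter fun a => ∀ t, ¬ R a (f t)).filter fun a => ¬ R a c).card : ℕ) : ℝ)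
          ≤ (1 - p) * (((A.filter fun a => ∀ t, ¬ R a (f t)).card : ℕ) : ℝ) := h4
        _ ≤ (1 - p) * (A.card * (1 - p) ^ T) := by
            apply mul_le_mul_of_nonneg_left hle
            linarith
        _ = A.card * (1 - p) ^ (T + 1) := by ring

end Pool.Agent.W2helper70.IW
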