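import Pool.Agent.W2helper70.IW.Defs

set_option autoImplicit false

/-!
Every isolating family of weight functions with small weights is large.
-/

namespace Pool.Agent.W2helper70.IW

open Finset

variable {V : Type}

/-- some connected component of `G` is a four cycle around which the alternating sum of the weights is zero -/
def Flat (w : Sym2 V → ℕ) (G : SimpleGraph V) : Prop :=
  ∃ a a' b b' : V, a ≠ a' ∧ b ≠ b' ∧ (∀ x, G.Adj a x ↔ x = b ∨ x = b') ∧ (∀ x, G.Adj a' x ↔ x = b ∨ x = b') ∧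
    (∀ x, G.Adj b x ↔ x = a ∨ x = a') ∧ (∀ x, G.Adj b' x ↔ x = a ∨ x = a') ∧
    w s(a, b) + w s(a', b') = w s(a, b') + w s(a', b)

open Classical in
theorem IsPM.map {G : SimpleGraph V} {M : Finset (Sym2 V)} (hM : IsPM G M) (π : Equiv.Perm V)
    (hπ : ∀ x y, G.Adj x y → G.Adj (π x) (π y)) : IsPM G (M.image (Sym2.map π)) := by
  refine ⟨fun e he => ?_, fun v => ?_⟩
  · obtain ⟨e0, he0, rfl⟩ := mem_image.1 he
    have := hM.1 e0 he0
    induction e0 using Sym2.inductionOn with
    | hf x y =>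
      rw [Sym2.map_mk, SimpleGraph.mem_edgeSet]
      exact hπ x y this
  · obtain ⟨e0, ⟨he0, hv⟩, huniq⟩ := hM.2 (π.symm v)
    refine ⟨Sym2.map π e0, ⟨mem_image_of_mem _ he0, Sym2.mem_map.2 ⟨_, hv, by simp⟩⟩, ?_⟩
    rintro e' ⟨he', hv'⟩
    obtain ⟨e1, he1, rfl⟩ := mem_image.1 he'
    obtain ⟨u, hu, huv⟩ := Sym2.mem_map.1 hv'
    have : u = π.symm v := by rw [← huv]; simp
    rw [huniq e1 ⟨he1, this ▸ hu⟩]

theorem not_isolates_of_flat {w : Sym2 V → ℕ} {G : SimpleGraph V} (h : Flat w G) : ¬ Isolates w G := by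
  classical
  rintro ⟨M, hM, hlt⟩
  obtain ⟨a, a', b, b', haa, hbb, ha, ha', hb, hb', hw⟩ := h
  have hab : a ≠ b := ((ha b).2 (Or.inl rfl)).ne
  have hab' : a ≠ b' := ((ha b').2 (Or.inr rfl)).ne
  have ha'b : a' ≠ b := ((ha' b).2 (Or.inl rfl)).ne
  have ha'b' : a' ≠ b' := ((ha' b').2 (Or.inr rfl)).ne
  have hfix : ∀ x, x ≠ b → x ≠ b' → Equiv.swap b b' x = x := fun x h1 h2 => Equiv.swap_apply_of_ne_of_ne h1 h2
  have hπ : ∀ x y, G.Adj x y → G.Adj (Equiv.swap b b' x) (Equiv.swap b b' y) := by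
    have key : ∀ x y, G.Adj x y → x = b ∨ x = b' → G.Adj (Equiv.swap b b' x) (Equiv.swap b b' y) := by
      rintro x y hxy (rfl | rfl)
      · have h1 := (hb y).1 hxy
        rw [Equiv.swap_apply_left, hfix y (by rcases h1 with rfl | rfl <;> assumption)
          (by rcases h1 with rfl | rfl <;> assumption)]
        exact (hb' y).2 h1
      · have h1 := (hb' y).1 hxy
        rw [Equiv.swap_apply_right, hfix y (by rcases h1 with rfl | rfl <;> assumption)
          (by rcases h1 with rfl | rfl <;> assumption)]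
        exact (hb y).2 h1
    intro x y hxy
    by_cases h1 : x = b ∨ x = b'
    · exact key x y hxy h1
    · by_cases h2 : y = b ∨ y = b'
      · exact (key y x hxy.symm h2).symm
      · push Not at h1 h2
        rw [hfix x h1.1 h1.2, hfix y h2.1 h2.2]
        exact hxy
  have hM' := hM.map (Equiv.swap b b') hπ
  obtain ⟨e1, ⟨he1, hbe1⟩, hu1⟩ := hM.2 b
  obtain ⟨e2, ⟨he2, hbe2⟩, hu2⟩ := hM.2 b'
  obtain ⟨e3, -, hu3⟩ := hM.2 a
  obtain ⟨e4, -, hu4⟩ := hM.2 a'
  obtain ⟨x, rfl⟩ := Sym2.mem_iff_exists.1 hbe1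
  obtain ⟨y, rfl⟩ := Sym2.mem_iff_exists.1 hbe2
  have hx := (hb x).1 (hM.1 _ he1)
  have hy := (hb' y).1 (hM.1 _ he2)
  have hxy : x ≠ y := by
    rintro rfl
    have h1 : s(b, x) = s(b', x) := by
      rcases hx with rfl | rfl
      · rw [hu3 s(b, x) ⟨he1, Sym2.mem_mk_right _ _⟩, hu3 s(b', x) ⟨he2, Sym2.mem_mk_right _ _⟩]
      · rw [hu4 s(b, x) ⟨he1, Sym2.mem_mk_right _ _⟩, hu4 s(b', x) ⟨he2, Sym2.mem_mk_right _ _⟩]
    rw [Sym2.eq_iff] at h1
    rcases h1 with ⟨h1, -⟩ | ⟨h1, h2⟩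
    · exact hbb h1
    · exact hbb (h1.trans h2)
  have hne12 : s(b, x) ≠ s(b', y) := by
    intro h1
    rw [Sym2.eq_iff] at h1
    rcases h1 with ⟨h1, -⟩ | ⟨h1, h2⟩
    · exact hbb h1
    · rcases hy with rfl | rfl
      · exact hab h1.symm
      · exact ha'b h1.symm
  have hsum : ∑ e ∈ M, ((w (Sym2.map (Equiv.swap b b') e) : ℤ) - w e) = 0 := by
    have h1 : ∑ e ∈ ({s(b, x), s(b', y)} : Finset (Sym2 V)), ((w (Sym2.map (Equiv.swap b b') e) : ℤ) - w e) =
        ∑ e ∈ M, ((w (Sym2.map (Equiv.swap b b') e) : ℤ) - w e) := by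
      refine sum_subset (fun e he => ?_) (fun e he hne => ?_)
      · rcases mem_insert.1 he with rfl | he
        · exact he1
        · rw [mem_singleton.1 he]
          exact he2
      · have h2 : Sym2.map (Equiv.swap b b') e = e := by
          have h3 : b ∉ e := fun h => hne (by rw [hu1 e ⟨he, h⟩]; exact mem_insert_self _ _)
          have h4 : b' ∉ e := fun h => hne (by
            rw [hu2 e ⟨he, h⟩]; exact mem_insert_of_mem (mem_singleton_self _))
          induction e using Sym2.inductionOn with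
          | hf u v =>
            rw [Sym2.mem_iff] at h3 h4
            push Not at h3 h4
            rw [Sym2.map_mk, hfix u h3.1.symm h4.1.symm, hfix v h3.2.symm h4.2.symm]
        rw [h2, sub_self]
    rw [← h1, sum_pair hne12]
    rw [Sym2.map_mk, Sym2.map_mk, Equiv.swap_apply_left, Equiv.swap_apply_right]
    rw [Sym2.eq_swap (a := a), Sym2.eq_swap (a := a') (b := b'), Sym2.eq_swap (a := a) (b := b'),
      Sym2.eq_swap (a := a') (b := b)] at hw
    rcases hx with rfl | rfl <;> rcases hy with rfl | rfl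
    · exact absurd rfl hxy
    · rw [hfix x hab hab', hfix y ha'b ha'b']
      have : (w s(b, x) : ℤ) + w s(b', y) = w s(b', x) + w s(b, y) := by exact_mod_cast hw
      linarith
    · rw [hfix x ha'b ha'b', hfix y hab hab']
      have : (w s(b, y) : ℤ) + w s(b', x) = w s(b', y) + w s(b, x) := by exact_mod_cast hw
      linarith
    · exact absurd rfl hxy
  have hne : M.image (Sym2.map (Equiv.swap b b')) ≠ M := by
    intro h
    have h1 : s(b', x) ∈ M := by
      rw [← h]
      refine mem_image.2 ⟨s(b, x), he1, ?_⟩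
      rw [Sym2.map_mk, Equiv.swap_apply_left, hfix x]
      · rcases hx with rfl | rfl <;> assumption
      · rcases hx with rfl | rfl <;> assumption
    have h2 := hu2 s(b', x) ⟨h1, Sym2.mem_mk_left _ _⟩
    rw [Sym2.eq_iff] at h2
    rcases h2 with ⟨-, h2⟩ | ⟨h2, -⟩
    · exact hxy h2
    · rcases hy with rfl | rfl
      · exact hab' h2.symm
      · exact ha'b' h2.symm
  have h1 := hlt _ hM' hne
  rw [sum_image fun _ _ _ _ h => Sym2.map.injective (Equiv.injective _) h] at h1
  rw [sum_sub_distrib, sub_eq_zero] at hsum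
  have h2 : ∑ e ∈ M, w (Sym2.map (Equiv.swap b b') e) = ∑ e ∈ M, w e := by exact_mod_cast hsum
  omega

/-- four cycles (or single edges) -/
def cyc (a a' b b' : V) : SimpleGraph V :=
  SimpleGraph.fromRel fun x y => (x = a ∨ x = a') ∧ (y = b ∨ y = b')

structure Nice (G : SimpleGraph V) (L R : Finset V) : Prop where
  adj : ∀ x y, G.Adj x y → (x ∈ L ∧ y ∈ R) ∨ (x ∈ R ∧ y ∈ L)
  deg : ∀ v, ∃ x y, ∀ u, G.Adj v u → u = x ∨ u = y
  pm : ∃ M : Finset (Sym2 V), (∀ e ∈ M, e ∈ G.edgeSet) ∧ ∀ v, v ∈ L ∨ v ∈ R → ∃! e, e ∈ M ∧ v ∈ e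

theorem Nice.mem {G : SimpleGraph V} {L R : Finset V} (h : Nice G L R) {e : Sym2 V} (he : e ∈ G.edgeSet) {v : V}
    (hv : v ∈ e) : v ∈ L ∨ v ∈ R := by
  obtain ⟨u, rfl⟩ := Sym2.mem_iff_exists.1 hv
  rcases h.adj v u he with h | h
  · exact Or.inl h.1
  · exact Or.inr h.1

theorem Nice.mem_left {G : SimpleGraph V} {L R : Finset V} (h : Nice G L R) {v u : V} (he : G.Adj v u) :
    v ∈ L ∨ v ∈ R := by
  rcases h.adj v u he with h | h
  · exact Or.inl h.1
  · exact Or.inr h.1

open Classical in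
theorem Nice.sup {G₁ G₂ : SimpleGraph V} {L₁ R₁ L₂ R₂ : Finset V} (h₁ : Nice G₁ L₁ R₁) (h₂ : Nice G₂ L₂ R₂)
    (hd : ∀ v, v ∈ L₁ ∨ v ∈ R₁ → v ∈ L₂ ∨ v ∈ R₂ → False) : Nice (G₁ ⊔ G₂) (L₁ ∪ L₂) (R₁ ∪ R₂) := by
  refine ⟨fun x y h => ?_, fun v => ?_, ?_⟩
  · simp only [mem_union]
    rcases h with h | h
    · rcases h₁.adj x y h with h | h <;> tauto
    · rcases h₂.adj x y h with h | h <;> tauto
  · by_cases hv : v ∈ L₁ ∨ v ∈ R₁
    · obtain ⟨x, y, hxy⟩ := h₁.deg v
      refine ⟨x, y, fun u hu => ?_⟩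
      rcases hu with hu | hu
      · exact hxy u hu
      · exact (hd v hv (h₂.mem_left hu)).elim
    · obtain ⟨x, y, hxy⟩ := h₂.deg v
      refine ⟨x, y, fun u hu => ?_⟩
      rcases hu with hu | hu
      · exact (hv (h₁.mem_left hu)).elim
      · exact hxy u hu
  · obtain ⟨M₁, hM₁, hu₁⟩ := h₁.pm
    obtain ⟨M₂, hM₂, hu₂⟩ := h₂.pm
    refine ⟨M₁ ∪ M₂, fun e he => ?_, fun v hv => ?_⟩
    · rw [SimpleGraph.edgeSet_sup]
      rcases mem_union.1 he with he | he
      · exact Or.inl (hM₁ e he)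
      · exact Or.inr (hM₂ e he)
    · have hv' : (v ∈ L₁ ∨ v ∈ R₁) ∨ (v ∈ L₂ ∨ v ∈ R₂) := by
        simp only [mem_union] at hv
        tauto
      rcases hv' with hv' | hv'
      · obtain ⟨e, ⟨he, hve⟩, huniq⟩ := hu₁ v hv'
        refine ⟨e, ⟨mem_union_left _ he, hve⟩, ?_⟩
        rintro e' ⟨he', hve'⟩
        rcases mem_union.1 he' with he' | he'
        · exact huniq e' ⟨he', hve'⟩
        · exact (hd v hv' (h₂.mem (hM₂ e' he') hve')).elim
      · obtain ⟨e, ⟨he, hve⟩, huniq⟩ := hu₂ v hv'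
        refine ⟨e, ⟨mem_union_right _ he, hve⟩, ?_⟩
        rintro e' ⟨he', hve'⟩
        rcases mem_union.1 he' with he' | he'
        · exact (hd v (h₁.mem (hM₁ e' he') hve') hv').elim
        · exact huniq e' ⟨he', hve'⟩

theorem Flat.sup {w : Sym2 V → ℕ} {G₁ G₂ : SimpleGraph V} (hd : ∀ v u u', G₁.Adj v u → G₂.Adj v u' → False)
    (h : Flat w G₁) : Flat w (G₁ ⊔ G₂) := by
  obtain ⟨a, a', b, b', haa, hbb, ha, ha', hb, hb', hw⟩ := h
  have key : ∀ v u, G₁.Adj v u → ∀ x, (G₁ ⊔ G₂).Adj v x ↔ G₁.Adj v x := by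
    intro v u hvu x
    rw [SimpleGraph.sup_adj]
    exact ⟨fun h => h.elim id fun h => (hd v u x hvu h).elim, Or.inl⟩
  refine ⟨a, a', b, b', haa, hbb, fun x => ?_, fun x => ?_, fun x => ?_, fun x => ?_, hw⟩
  · rw [key a b ((ha b).2 (Or.inl rfl))]; exact ha x
  · rw [key a' b ((ha' b).2 (Or.inl rfl))]; exact ha' x
  · rw [key b a ((hb a).2 (Or.inl rfl))]; exact hb x
  · rw [key b' a ((hb' a).2 (Or.inl rfl))]; exact hb' x

open Classical in
theorem nice_cyc {a a' b b' : V} (h : a = a' ↔ b = b') (h1 : a ≠ b) (h2 : a ≠ b') (h3 : a' ≠ b) (h4 : a' ≠ b') :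
    Nice (cyc a a' b b') {a, a'} {b, b'} := by
  refine ⟨fun x y h => ?_, fun v => ?_, ?_⟩
  · simp only [cyc, SimpleGraph.fromRel_adj] at h
    simp only [mem_insert, mem_singleton]
    tauto
  · by_cases hv : v = a ∨ v = a'
    · refine ⟨b, b', fun u hu => ?_⟩
      simp only [cyc, SimpleGraph.fromRel_adj] at hu
      rcases hu.2 with hu | hu
      · exact hu.2
      · rcases hv with rfl | rfl <;> rcases hu.2 with hu' | hu' <;> simp_all
    · refine ⟨a, a', fun u hu => ?_⟩
      simp only [cyc, SimpleGraph.fromRel_adj] at hu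
      tauto
  · refine ⟨{s(a, b), s(a', b')}, fun e he => ?_, fun v hv => ?_⟩
    · rcases mem_insert.1 he with rfl | he
      · rw [SimpleGraph.mem_edgeSet, cyc, SimpleGraph.fromRel_adj]
        exact ⟨h1, Or.inl ⟨Or.inl rfl, Or.inl rfl⟩⟩
      · rw [mem_singleton.1 he, SimpleGraph.mem_edgeSet, cyc, SimpleGraph.fromRel_adj]
        exact ⟨h4, Or.inl ⟨Or.inr rfl, Or.inr rfl⟩⟩
    · by_cases haa : a = a'
      · have hbb := h.1 haa
        subst haa
        subst hbb
        refine ⟨s(a, b), ⟨by simp, ?_⟩, ?_⟩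
        · rw [Sym2.mem_iff]
          simpa using hv
        · rintro e ⟨he, -⟩
          simpa using he
      · have hbb : b ≠ b' := fun hh => haa (h.2 hh)
        simp only [mem_insert, mem_singleton] at hv
        have hv' : (v = a ∨ v = b) ∨ (v = a' ∨ v = b') := by tauto
        rcases hv' with hv' | hv'
        · refine ⟨s(a, b), ⟨by simp, Sym2.mem_iff.2 hv'⟩, ?_⟩
          rintro e ⟨he, hve⟩
          rcases mem_insert.1 he with he | he
          · exact he
          · rw [mem_singleton.1 he, Sym2.mem_iff] at hve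
            rcases hv' with rfl | rfl <;> rcases hve with hve | hve <;> simp_all
        · refine ⟨s(a', b'), ⟨by simp, Sym2.mem_iff.2 hv'⟩, ?_⟩
          rintro e ⟨he, hve⟩
          rcases mem_insert.1 he with he | he
          · rw [he, Sym2.mem_iff] at hve
            rcases hv' with rfl | rfl <;> rcases hve with hve | hve <;> simp_all
          · exact mem_singleton.1 he

theorem flat_cyc {w : Sym2 V → ℕ} {a a' b b' : V} (h : a ≠ a') (h' : b ≠ b') (h1 : a ≠ b) (h2 : a ≠ b')
    (h3 : a' ≠ b) (h4 : a' ≠ b') (hw : w s(a, b) + w s(a', b') = w s(a, b') + w s(a', b)) :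
    Flat w (cyc a a' b b') := by
  refine ⟨a, a', b, b', h, h', fun x => ?_, fun x => ?_, fun x => ?_, fun x => ?_, hw⟩ <;>
    simp only [cyc, SimpleGraph.fromRel_adj]
  · constructor
    · rintro ⟨-, h | h⟩
      · exact h.2
      · rcases h.2 with rfl | rfl <;> simp_all
    · rintro (rfl | rfl)
      · exact ⟨h1, Or.inl ⟨by simp, by simp⟩⟩
      · exact ⟨h2, Or.inl ⟨by simp, by simp⟩⟩
  · constructor
    · rintro ⟨-, h | h⟩
      · exact h.2
      · rcases h.2 with rfl | rfl <;> simp_all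
    · rintro (rfl | rfl)
      · exact ⟨h3, Or.inl ⟨by simp, by simp⟩⟩
      · exact ⟨h4, Or.inl ⟨by simp, by simp⟩⟩
  · constructor
    · rintro ⟨-, h | h⟩
      · rcases h.1 with rfl | rfl <;> simp_all
      · exact h.1
    · rintro (rfl | rfl)
      · exact ⟨h1.symm, Or.inr ⟨by simp, by simp⟩⟩
      · exact ⟨h3.symm, Or.inr ⟨by simp, by simp⟩⟩
  · constructor
    · rintro ⟨-, h | h⟩
      · rcases h.1 with rfl | rfl <;> simp_all
      · exact h.1
    · rintro (rfl | rfl)
      · exact ⟨h2.symm, Or.inr ⟨by simp, by simp⟩⟩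
      · exact ⟨h4.symm, Or.inr ⟨by simp, by simp⟩⟩

open Classical in
theorem collisions {R : Finset V} {B : ℕ} (f : V → ℕ) (hf : ∀ b ∈ R, f b ≤ 2 * B) (hR : 4 * B + 2 ≤ R.card) :
    (1 / (4 * B + 2) : ℝ) * R.offDiag.card ≤ ((R.offDiag.filter fun x => f x.1 = f x.2).card : ℝ) := by
  set c : ℕ → ℕ := fun k => (R.filter fun b => f b = k).card with hc
  have h1 : R.card = ∑ k ∈ range (2 * B + 1), c k :=
    card_eq_sum_card_fiberwise fun b hb => by
      have := hf b hb
      exact mem_coe.2 (mem_range.2 (by omega))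
  have h2 : ((R ×ˢ R).filter fun x => f x.1 = f x.2).card = ∑ k ∈ range (2 * B + 1), c k ^ 2 := by
    rw [card_eq_sum_card_fiberwise (f := fun x : V × V => f x.1) (t := range (2 * B + 1))]
    · refine sum_congr rfl fun k _ => ?_
      rw [hc, sq, ← card_product]
      congr 1
      ext ⟨x, y⟩
      simp only [mem_filter, mem_product]
      constructor
      · rintro ⟨⟨⟨hx, hy⟩, hxy⟩, hk⟩
        exact ⟨⟨hx, hk⟩, ⟨hy, hxy ▸ hk⟩⟩
      · rintro ⟨⟨hx, hk⟩, ⟨hy, hk'⟩⟩
        exact ⟨⟨⟨hx, hy⟩, hk.trans hk'.symm⟩, hk⟩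
    · intro x hx
      have : f x.1 < 2 * B + 1 := Nat.lt_succ_of_le (hf x.1 (mem_product.1 (mem_filter.1 (mem_coe.1 hx)).1).1)
      exact mem_coe.2 (mem_range.2 this)
  have h3 : ((R ×ˢ R).filter fun x => f x.1 = f x.2).card =
      R.card + (R.offDiag.filter fun x => f x.1 = f x.2).card := by
    rw [← diag_union_offDiag, filter_union, card_union_of_disjoint]
    · congr 1
      rw [filter_true_of_mem]
      · exact diag_card R
      · intro x hx
        rw [(mem_diag.1 hx).2]
    · exact disjoint_filter_filter (disjoint_diag_offDiag R)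
  have h4 : (∑ k ∈ range (2 * B + 1), (c k : ℝ)) ^ 2 ≤ (range (2 * B + 1)).card * ∑ k ∈ range (2 * B + 1), (c k : ℝ) ^ 2 :=
    sq_sum_le_card_mul_sum_sq
  rw [card_range] at h4
  have h1' : (R.card : ℝ) = ∑ k ∈ range (2 * B + 1), (c k : ℝ) := by exact_mod_cast h1
  have h2' : (R.card : ℝ) + ((R.offDiag.filter fun x => f x.1 = f x.2).card : ℝ) =
      ∑ k ∈ range (2 * B + 1), (c k : ℝ) ^ 2 := by
    rw [h3] at h2
    exact_mod_cast h2
  rw [← h1', ← h2'] at h4
  push_cast at h4
  have hoff : (R.offDiag.card : ℝ) = R.card * R.card - R.card := by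
    rw [offDiag_card]
    rw [Nat.cast_sub (Nat.le_mul_self _)]
    push_cast
    ring
  have hR' : (4 * B + 2 : ℝ) ≤ R.card := by exact_mod_cast hR
  rw [hoff, div_mul_eq_mul_div, one_mul, div_le_iff₀ (by positivity)]
  have hB : (0 : ℝ) ≤ B := Nat.cast_nonneg _
  nlinarith [mul_nonneg (by linarith : (0 : ℝ) ≤ R.card - (4 * B + 2)) (by linarith : (0 : ℝ) ≤ (R.card : ℝ))]

open Classical in
theorem kill {L R : Finset V} {B : ℕ} {w : Sym2 V → ℕ} (hw : ∀ e, w e ≤ B) (hR : 4 * B + 2 ≤ R.card) :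
    (1 / (4 * B + 2) : ℝ) * (L.offDiag ×ˢ R.offDiag).card ≤
      (((L.offDiag ×ˢ R.offDiag).filter fun c => w s(c.1.1, c.2.1) + w s(c.1.2, c.2.2) =
        w s(c.1.1, c.2.2) + w s(c.1.2, c.2.1)).card : ℝ) := by
  rw [card_filter, sum_product, card_product]
  have h1 : ∀ x ∈ L.offDiag, (1 / (4 * B + 2) : ℝ) * R.offDiag.card ≤
      ((∑ y ∈ R.offDiag, if w s(x.1, y.1) + w s(x.2, y.2) = w s(x.1, y.2) + w s(x.2, y.1) then 1 else 0 : ℕ) : ℝ) := by
    intro x _
    rw [← card_filter]
    refine (collisions (fun b => w s(x.1, b) + B - w s(x.2, b)) (fun b _ => ?_) hR).trans (le_of_eq ?_)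
    · have := hw s(x.1, b)
      omega
    · congr 2
      ext y
      simp only [mem_filter]
      have h2 := hw s(x.1, y.1)
      have h3 := hw s(x.1, y.2)
      have h4 := hw s(x.2, y.1)
      have h5 := hw s(x.2, y.2)
      constructor
      · rintro ⟨h6, h7⟩
        exact ⟨h6, by omega⟩
      · rintro ⟨h6, h7⟩
        exact ⟨h6, by omega⟩
  push_cast at h1 ⊢
  calc (1 / (4 * B + 2) : ℝ) * (L.offDiag.card * R.offDiag.card)
      = ∑ _x ∈ L.offDiag, (1 / (4 * B + 2) : ℝ) * R.offDiag.card := by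
        rw [sum_const, nsmul_eq_mul]; ring
    _ ≤ _ := sum_le_sum h1

open Classical in
theorem nice_exists : ∀ (r : ℕ) (L R : Finset V), Disjoint L R → L.card = r → R.card = r → ∃ G, Nice G L R := by
  intro r
  induction r with
  | zero =>
    intro L R _ hL hR
    rw [card_eq_zero] at hL hR
    subst hL
    subst hR
    refine ⟨⊥, fun x y h => h.elim, fun v => ⟨v, v, fun u h => h.elim⟩, ∅, fun e he => by simp at he,
      fun v hv => by simp at hv⟩
  | succ r ih =>
    intro L R hd hL hR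
    obtain ⟨a, ha⟩ : L.Nonempty := card_pos.1 (by omega)
    obtain ⟨b, hb⟩ : R.Nonempty := card_pos.1 (by omega)
    have hab : a ≠ b := fun h => disjoint_left.1 hd ha (h ▸ hb)
    obtain ⟨G, hG⟩ := ih (L.erase a) (R.erase b) (hd.mono (erase_subset _ _) (erase_subset _ _))
      (by rw [card_erase_of_mem ha]; omega) (by rw [card_erase_of_mem hb]; omega)
    refine ⟨cyc a a b b ⊔ G, ?_⟩
    have h1 := (nice_cyc (a := a) (a' := a) (b := b) (b' := b) (by simp) hab hab hab hab).sup hG (by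
      intro v hv hv'
      simp only [mem_insert, mem_singleton, or_self, mem_erase] at hv hv'
      rcases hv with rfl | rfl
      · rcases hv' with h | h
        · exact h.1 rfl
        · exact disjoint_left.1 hd ha h.2
      · rcases hv' with h | h
        · exact disjoint_left.1 hd h.2 hb
        · exact h.1 rfl)
    have h2 : ({a, a} : Finset V) ∪ L.erase a = L := by
      ext x
      simp only [mem_union, mem_insert, mem_singleton, or_self, mem_erase]
      by_cases hx : x = a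
      · subst hx; simp [ha]
      · simp [hx]
    have h3 : ({b, b} : Finset V) ∪ R.erase b = R := by
      ext x
      simp only [mem_union, mem_insert, mem_singleton, or_self, mem_erase]
      by_cases hx : x = b
      · subst hx; simp [hb]
      · simp [hx]
    rw [h2, h3] at h1
    exact h1

open Classical in
theorem main {ι : Type} (w : ι → Sym2 V → ℕ) {B : ℕ} (hw : ∀ t e, w t e ≤ B) :
    ∀ (s r : ℕ) (L R : Finset V) (A : Finset ι), Disjoint L R → L.card = r → R.card = r →
      (s ≠ 0 → 4 * B + 2 * s ≤ r) →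
      ∃ G, Nice G L R ∧
        (((A.filter fun t => ¬ Flat (w t) G).card : ℕ) : ℝ) ≤ A.card * (1 - 1 / (4 * B + 2)) ^ s := by
  intro s
  induction s with
  | zero =>
    intro r L R A hd hL hR _
    obtain ⟨G, hG⟩ := nice_exists r L R hd hL hR
    refine ⟨G, hG, ?_⟩
    rw [pow_zero, mul_one]
    exact_mod_cast card_filter_le _ _
  | succ s ih =>
    intro r L R A hd hL hR hr
    have hr := hr (by omega)
    have hC : (0 : ℝ) < ∑ c ∈ L.offDiag ×ˢ R.offDiag, (1 : ℝ) := by
      rw [sum_const, nsmul_eq_mul, mul_one, card_product, offDiag_card, offDiag_card, hL, hR]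
      have : 0 < r * r - r := by
        have : r < r * r := by nlinarith
        omega
      exact_mod_cast Nat.mul_pos this this
    obtain ⟨⟨⟨a, a'⟩, ⟨b, b'⟩⟩, hc, hle⟩ := exists_good A (L.offDiag ×ˢ R.offDiag) (fun _ => (1 : ℝ))
      (fun _ _ => zero_le_one) hC (fun t c => w t s(c.1.1, c.2.1) + w t s(c.1.2, c.2.2) =
        w t s(c.1.1, c.2.2) + w t s(c.1.2, c.2.1)) (1 / (4 * B + 2)) (by
        intro t _
        rw [sum_const, nsmul_eq_mul, mul_one, sum_const, nsmul_eq_mul, mul_one]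
        exact kill (hw t) (by omega))
    simp only [mem_product, mem_offDiag] at hc
    obtain ⟨⟨haL, ha'L, haa⟩, hbR, hb'R, hbb⟩ := hc
    simp only at hle
    have h1 : a ≠ b := fun h => disjoint_left.1 hd haL (h ▸ hbR)
    have h2 : a ≠ b' := fun h => disjoint_left.1 hd haL (h ▸ hb'R)
    have h3 : a' ≠ b := fun h => disjoint_left.1 hd ha'L (h ▸ hbR)
    have h4 : a' ≠ b' := fun h => disjoint_left.1 hd ha'L (h ▸ hb'R)
    obtain ⟨G, hG, hGle⟩ := ih (r - 2) ((L.erase a).erase a') ((R.erase b).erase b')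
      (A.filter fun t => ¬ (w t s(a, b) + w t s(a', b') = w t s(a, b') + w t s(a', b)))
      (hd.mono ((erase_subset _ _).trans (erase_subset _ _)) ((erase_subset _ _).trans (erase_subset _ _)))
      (by
        rw [card_erase_of_mem (mem_erase.2 ⟨haa.symm, ha'L⟩), card_erase_of_mem haL]
        omega)
      (by
        rw [card_erase_of_mem (mem_erase.2 ⟨hbb.symm, hb'R⟩), card_erase_of_mem hbR]
        omega)
      (by intro _; omega)
    have hnc := nice_cyc (a := a) (a' := a') (b := b) (b' := b') (by simp [haa, hbb]) h1 h2 h3 h4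
    have hdis : ∀ v, v ∈ ({a, a'} : Finset V) ∨ v ∈ ({b, b'} : Finset V) →
        v ∈ (L.erase a).erase a' ∨ v ∈ (R.erase b).erase b' → False := by
      intro v hv hv'
      simp only [mem_insert, mem_singleton, mem_erase] at hv hv'
      rcases hv with (rfl | rfl) | (rfl | rfl) <;> rcases hv' with h | h
      · exact h.2.1 rfl
      · exact disjoint_left.1 hd haL h.2.2
      · exact h.1 rfl
      · exact disjoint_left.1 hd ha'L h.2.2
      · exact disjoint_left.1 hd h.2.2 hbR
      · exact h.2.1 rfl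
      · exact disjoint_left.1 hd h.2.2 hb'R
      · exact h.1 rfl
    have hN := hnc.sup hG hdis
    have hL' : ({a, a'} : Finset V) ∪ (L.erase a).erase a' = L := by
      ext x
      simp only [mem_union, mem_insert, mem_singleton, mem_erase]
      by_cases hx : x = a
      · subst hx; simp [haL]
      · by_cases hx' : x = a'
        · subst hx'; simp [ha'L]
        · simp [hx, hx']
    have hR' : ({b, b'} : Finset V) ∪ (R.erase b).erase b' = R := by
      ext x
      simp only [mem_union, mem_insert, mem_singleton, mem_erase]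
      by_cases hx : x = b
      · subst hx; simp [hbR]
      · by_cases hx' : x = b'
        · subst hx'; simp [hb'R]
        · simp [hx, hx']
    rw [hL', hR'] at hN
    refine ⟨_, hN, ?_⟩
    have hsub : (A.filter fun t => ¬ Flat (w t) (cyc a a' b b' ⊔ G)) ⊆
        ((A.filter fun t => ¬ (w t s(a, b) + w t s(a', b') = w t s(a, b') + w t s(a', b))).filter
          fun t => ¬ Flat (w t) G) := by
      intro t ht
      rw [mem_filter] at ht
      rw [mem_filter, mem_filter]
      refine ⟨⟨ht.1, fun h => ht.2 ?_⟩, fun h => ht.2 ?_⟩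
      · exact (flat_cyc haa hbb h1 h2 h3 h4 h).sup fun v u u' hu hu' =>
          hdis v (hnc.mem_left hu) (hG.mem_left hu')
      · rw [sup_comm]
        exact h.sup fun v u u' hu hu' => hdis v (hnc.mem_left hu') (hG.mem_left hu)
    have hcard := card_filter_add_card_filter_not (s := A)
      (fun t => w t s(a, b) + w t s(a', b') = w t s(a, b') + w t s(a', b))
    have hcard' : (((A.filter fun t => w t s(a, b) + w t s(a', b') = w t s(a, b') + w t s(a', b)).card : ℕ) : ℝ) +
        (((A.filter fun t => ¬ (w t s(a, b) + w t s(a', b') = w t s(a, b') + w t s(a', b))).card : ℕ) : ℝ) =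
        A.card := by exact_mod_cast hcard
    have hp : (1 / (4 * B + 2) : ℝ) ≤ 1 := by
      rw [div_le_one (by positivity)]
      have : (0 : ℝ) ≤ B := Nat.cast_nonneg _
      linarith
    calc (((A.filter fun t => ¬ Flat (w t) (cyc a a' b b' ⊔ G)).card : ℕ) : ℝ)
        ≤ (((A.filter fun t => ¬ (w t s(a, b) + w t s(a', b') = w t s(a, b') + w t s(a', b))).filter
          fun t => ¬ Flat (w t) G).card : ℕ) := by exact_mod_cast card_le_card hsub
      _ ≤ _ := hGle
      _ ≤ ((1 - 1 / (4 * B + 2)) * A.card) * (1 - 1 / (4 * B + 2)) ^ s := by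
          refine mul_le_mul_of_nonneg_right ?_ (pow_nonneg (by linarith) _)
          linarith
      _ = _ := by ring

theorem lower {n B T : ℕ} (W : Fin T → Sym2 (Fin (2 * n)) → ℕ) (hW : ∀ t e, W t e ≤ B)
    (h : ∀ G : SimpleGraph (Fin (2 * n)), G.IsBipartite → (∀ v, (G.neighborSet v).ncard ≤ 2) → (∃ M, IsPM G M) →
      ∃ t, Isolates (W t) G) :
    Real.exp (((n : ℝ) + 1) / (8 * B + 4) - 1 / 2) ≤ T := by
  classical
  obtain ⟨L, -, hL⟩ := exists_subset_card_eq (s := (univ : Finset (Fin (2 * n)))) (n := n) (by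
    rw [card_univ, Fintype.card_fin]; omega)
  have hR : Lᶜ.card = n := by
    rw [card_compl, Fintype.card_fin, hL]; omega
  obtain ⟨G, hG, hle⟩ := main W hW ((n - 4 * B) / 2) n L Lᶜ univ disjoint_compl_right hL hR (by
    intro _; omega)
  have hbip : G.IsBipartite := by
    refine SimpleGraph.IsBipartiteWith.isBipartite (s := (L : Set (Fin (2 * n)))) (t := ((Lᶜ : Finset _) : Set _)) ?_
    refine ⟨?_, ?_⟩
    · rw [disjoint_coe]
      exact disjoint_compl_right
    · intro x y hxy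
      exact hG.adj x y hxy
  have hdeg : ∀ v, (G.neighborSet v).ncard ≤ 2 := by
    intro v
    obtain ⟨x, y, hxy⟩ := hG.deg v
    calc (G.neighborSet v).ncard ≤ ({x, y} : Set (Fin (2 * n))).ncard :=
          Set.ncard_le_ncard (fun u hu => hxy u hu) (Set.toFinite _)
      _ ≤ 2 := (Set.ncard_insert_le x {y}).trans (by rw [Set.ncard_singleton])
  have hpm : ∃ M, IsPM G M := by
    obtain ⟨M, hM, hu⟩ := hG.pm
    refine ⟨M, hM, fun v => hu v ?_⟩
    by_cases hv : v ∈ L
    · exact Or.inl hv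
    · exact Or.inr (mem_compl.2 hv)
  obtain ⟨t, ht⟩ := h G hbip hdeg hpm
  have h1 : (1 : ℝ) ≤ (((univ : Finset (Fin T)).filter fun t => ¬ Flat (W t) G).card : ℕ) := by
    have : 0 < ((univ : Finset (Fin T)).filter fun t => ¬ Flat (W t) G).card :=
      card_pos.2 ⟨t, mem_filter.2 ⟨mem_univ _, fun hf => not_isolates_of_flat hf ht⟩⟩
    exact_mod_cast this
  rw [card_univ, Fintype.card_fin] at hle
  set s : ℕ := (n - 4 * B) / 2 with hs
  set p : ℝ := 1 / (4 * B + 2) with hp
  have hp1 : p ≤ 1 := by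
    rw [hp, div_le_one (by positivity)]
    have : (0 : ℝ) ≤ B := Nat.cast_nonneg _
    linarith
  have h2 : (1 - p) ^ s ≤ Real.exp (-(p * s)) := by
    calc (1 - p) ^ s ≤ Real.exp (-p) ^ s := by
          refine pow_le_pow_left₀ (by linarith) ?_ s
          have := Real.add_one_le_exp (-p)
          linarith
      _ = Real.exp (-(p * s)) := by rw [← Real.exp_nat_mul]; congr 1; ring
  have h3 : (n : ℝ) ≤ 4 * B + 2 * s + 1 := by
    have : n ≤ 4 * B + 2 * s + 1 := by omega
    exact_mod_cast this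
  have h4 : ((n : ℝ) + 1) / (8 * B + 4) - 1 / 2 ≤ p * s := by
    rw [hp]
    have hB : (0 : ℝ) < 8 * B + 4 := by positivity
    have h5 : ((n : ℝ) + 1) / (8 * B + 4) ≤ (4 * B + 2 * s + 2) / (8 * B + 4) := by
      exact div_le_div_of_nonneg_right (by linarith) hB.le
    have h6 : (4 * (B : ℝ) + 2 * s + 2) / (8 * B + 4) = 1 / 2 + 1 / (4 * B + 2) * s := by
      field_simp
      ring
    linarith
  have h5 : (1 : ℝ) ≤ T * Real.exp (-(p * s)) :=
    h1.trans (hle.trans (mul_le_mul_of_nonneg_left h2 (Nat.cast_nonneg _)))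
  rw [Real.exp_neg, ← div_eq_mul_inv, le_div_iff₀ (Real.exp_pos _), one_mul] at h5
  exact (Real.exp_le_exp.2 h4).trans h5

end Pool.Agent.W2helper70.IW
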