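import Mathlib

set_option autoImplicit false

/-!
Collisions between internally disjoint layered paths.
-/

namespace Pool.Agent.W2helper70.IW

open Finset

theorem pigeon {α β : Type} [DecidableEq β] {s : Finset α} (t : Finset β) (f : α → β) (hf : ∀ a ∈ s, f a ∈ t)
    (hs : s.Nonempty) : ∃ y ∈ t, s.card ≤ t.card * (s.filter fun a => f a = y).card := by
  by_contra hno
  push Not at hno
  obtain ⟨a, ha⟩ := hs
  have h1 : s.card = ∑ y ∈ t, (s.filter fun a => f a = y).card :=
    card_eq_sum_card_fiberwise fun a ha => mem_coe.2 (hf a (mem_coe.1 ha))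
  have h2 : ∑ y ∈ t, t.card * (s.filter fun a => f a = y).card < ∑ y ∈ t, s.card :=
    sum_lt_sum_of_nonempty ⟨f a, hf a ha⟩ hno
  rw [← mul_sum, ← h1, sum_const, smul_eq_mul] at h2
  exact lt_irrefl _ h2

theorem card_free {r i j : ℕ} (A : Finset (ℕ → Fin r)) (q : ℕ → Fin r)
    (h : ∀ p ∈ A, ∀ k, k ≤ i ∨ j ≤ k → p k = q k) : A.card ≤ r ^ (j - i - 1) := by
  calc A.card ≤ (univ : Finset (Fin (j - i - 1) → Fin r)).card := by
        refine card_le_card_of_injOn (fun p t => p (i + 1 + t)) (fun _ _ => mem_coe.2 (mem_univ _)) ?_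
        intro p hp p' hp' hpp
        funext k
        by_cases hk : k ≤ i ∨ j ≤ k
        · rw [h p hp k hk, h p' hp' k hk]
        · push Not at hk
          have := congrFun hpp ⟨k - i - 1, by omega⟩
          simp only at this
          rwa [show i + 1 + (k - i - 1) = k by omega] at this
    _ = r ^ (j - i - 1) := by rw [card_univ, Fintype.card_fun, Fintype.card_fin, Fintype.card_fin]

theorem dense {r L : ℕ} (c : ℕ → Fin r → Fin r → ℤ)
    (H : ∀ i j, i + 2 ≤ j → j ≤ L → ∀ p p' : ℕ → Fin r, p i = p' i → p j = p' j →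
      (∀ k, i < k → k < j → p k ≠ p' k) →
      ∑ k ∈ Ico i j, c k (p k) (p (k + 1)) ≠ ∑ k ∈ Ico i j, c k (p' k) (p' (k + 1))) :
    ∀ (l i j : ℕ), i + 2 ^ l ≤ j → j ≤ L → ∀ (A : Finset (ℕ → Fin r)) (q : ℕ → Fin r) (a : ℤ),
      (∀ p ∈ A, ∀ k, k ≤ i ∨ j ≤ k → p k = q k) →
      (∀ p ∈ A, ∑ k ∈ Ico i j, c k (p k) (p (k + 1)) = a) →
      A.card * r ^ l ≤ L ^ l * r ^ (j - i - 1) := by
  classical
  intro l
  induction l with
  | zero =>
    intro i j _ _ A q a hq _
    simpa using card_free A q hq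
  | succ l ih =>
    intro i j hij hj A q a hq ha
    rcases A.eq_empty_or_nonempty with rfl | hA
    · simp
    have h2l : 1 ≤ 2 ^ l := Nat.one_le_two_pow
    have hpow : 2 ^ (l + 1) = 2 * 2 ^ l := by rw [pow_succ]; ring
    obtain ⟨p0, hp0⟩ := hA
    have hex : ∀ p ∈ A, ∃ k, k ∈ Ioo i j ∧ p k = p0 k := by
      intro p hp
      by_contra hno
      push Not at hno
      refine H i j (by omega) hj p p0 ?_ ?_ (fun k h1 h2 => hno k (mem_Ioo.2 ⟨h1, h2⟩)) ?_
      · rw [hq p hp i (Or.inl le_rfl), hq p0 hp0 i (Or.inl le_rfl)]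
      · rw [hq p hp j (Or.inr le_rfl), hq p0 hp0 j (Or.inr le_rfl)]
      · rw [ha p hp, ha p0 hp0]
    choose! g hg hgp using hex
    obtain ⟨m, hm, hcard⟩ := pigeon (s := A) (Ioo i j) g hg ⟨p0, hp0⟩
    rw [mem_Ioo] at hm
    rw [Nat.card_Ioo] at hcard
    set A' := A.filter fun p => g p = m with hA'
    have hA'm : ∀ p ∈ A', p ∈ A ∧ p m = p0 m := by
      intro p hp
      rw [hA', mem_filter] at hp
      refine ⟨hp.1, ?_⟩
      have := hgp p hp.1
      rwa [hp.2] at this
    have hne : A'.Nonempty := by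
      rw [← card_pos]
      rcases Nat.eq_zero_or_pos A'.card with h0 | h0
      · rw [h0, mul_zero] at hcard
        have : 0 < A.card := card_pos.2 ⟨p0, hp0⟩
        omega
      · exact h0
    by_cases hlong : m - i ≤ j - m
    · obtain ⟨u, -, hu⟩ := pigeon (s := A') (univ : Finset (Fin (m - i - 1) → Fin r))
        (fun p t => p (i + 1 + t)) (fun _ _ => mem_univ _) hne
      rw [card_univ, Fintype.card_fun, Fintype.card_fin, Fintype.card_fin] at hu
      set F := A'.filter fun p => (fun t : Fin (m - i - 1) => p (i + 1 + t)) = u with hF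
      have hFne : F.Nonempty := by
        rw [← card_pos]
        rcases Nat.eq_zero_or_pos F.card with h0 | h0
        · rw [h0, mul_zero] at hu
          have : 0 < A'.card := card_pos.2 hne
          omega
        · exact h0
      obtain ⟨p1, hp1⟩ := hFne
      have hagree : ∀ p ∈ F, ∀ k, k ≤ m ∨ j ≤ k → p k = p1 k := by
        intro p hp k hk
        rw [hF, mem_filter] at hp hp1
        have h1 := hA'm p hp.1
        have h2 := hA'm p1 hp1.1
        by_cases hk' : k ≤ i ∨ j ≤ k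
        · rw [hq p h1.1 k hk', hq p1 h2.1 k hk']
        · push Not at hk'
          by_cases hkm : k = m
          · rw [hkm, h1.2, h2.2]
          · have h3 := congrFun (hp.2.trans hp1.2.symm) ⟨k - i - 1, by omega⟩
            simp only at h3
            rwa [show i + 1 + (k - i - 1) = k by omega] at h3
      have hsum : ∀ p ∈ F, ∑ k ∈ Ico m j, c k (p k) (p (k + 1)) = a - ∑ k ∈ Ico i m, c k (p1 k) (p1 (k + 1)) := by
        intro p hp
        have h1 := ha p (hA'm p (mem_filter.1 hp).1).1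
        rw [← sum_Ico_consecutive _ (by omega : i ≤ m) (by omega : m ≤ j)] at h1
        have h2 : ∑ k ∈ Ico i m, c k (p k) (p (k + 1)) = ∑ k ∈ Ico i m, c k (p1 k) (p1 (k + 1)) := by
          refine sum_congr rfl fun k hk => ?_
          rw [mem_Ico] at hk
          rw [hagree p hp k (Or.inl (by omega)), hagree p hp (k + 1) (Or.inl (by omega))]
        rw [h2] at h1
        linarith
      have h3 := ih m j (by omega) hj F p1 _ hagree hsum
      calc A.card * r ^ (l + 1) ≤ ((j - i - 1) * (r ^ (m - i - 1) * F.card)) * r ^ (l + 1) :=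
            Nat.mul_le_mul_right _ (hcard.trans (Nat.mul_le_mul_left _ hu))
        _ = ((j - i - 1) * r ^ (m - i - 1) * r) * (F.card * r ^ l) := by ring
        _ ≤ (L * r ^ (m - i - 1) * r) * (L ^ l * r ^ (j - m - 1)) := by
            refine Nat.mul_le_mul ?_ h3
            exact Nat.mul_le_mul_right _ (Nat.mul_le_mul_right _ (by omega))
        _ = L ^ (l + 1) * r ^ ((m - i - 1) + 1 + (j - m - 1)) := by ring
        _ = L ^ (l + 1) * r ^ (j - i - 1) := by congr 2; omega
    · obtain ⟨u, -, hu⟩ := pigeon (s := A') (univ : Finset (Fin (j - m - 1) → Fin r))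
        (fun p t => p (m + 1 + t)) (fun _ _ => mem_univ _) hne
      rw [card_univ, Fintype.card_fun, Fintype.card_fin, Fintype.card_fin] at hu
      set F := A'.filter fun p => (fun t : Fin (j - m - 1) => p (m + 1 + t)) = u with hF
      have hFne : F.Nonempty := by
        rw [← card_pos]
        rcases Nat.eq_zero_or_pos F.card with h0 | h0
        · rw [h0, mul_zero] at hu
          have : 0 < A'.card := card_pos.2 hne
          omega
        · exact h0
      obtain ⟨p1, hp1⟩ := hFne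
      have hagree : ∀ p ∈ F, ∀ k, k ≤ i ∨ m ≤ k → p k = p1 k := by
        intro p hp k hk
        rw [hF, mem_filter] at hp hp1
        have h1 := hA'm p hp.1
        have h2 := hA'm p1 hp1.1
        by_cases hk' : k ≤ i ∨ j ≤ k
        · rw [hq p h1.1 k hk', hq p1 h2.1 k hk']
        · push Not at hk'
          by_cases hkm : k = m
          · rw [hkm, h1.2, h2.2]
          · have h3 := congrFun (hp.2.trans hp1.2.symm) ⟨k - m - 1, by omega⟩
            simp only at h3
            rwa [show m + 1 + (k - m - 1) = k by omega] at h3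
      have hsum : ∀ p ∈ F, ∑ k ∈ Ico i m, c k (p k) (p (k + 1)) = a - ∑ k ∈ Ico m j, c k (p1 k) (p1 (k + 1)) := by
        intro p hp
        have h1 := ha p (hA'm p (mem_filter.1 hp).1).1
        rw [← sum_Ico_consecutive _ (by omega : i ≤ m) (by omega : m ≤ j)] at h1
        have h2 : ∑ k ∈ Ico m j, c k (p k) (p (k + 1)) = ∑ k ∈ Ico m j, c k (p1 k) (p1 (k + 1)) := by
          refine sum_congr rfl fun k hk => ?_
          rw [mem_Ico] at hk
          rw [hagree p hp k (Or.inr (by omega)), hagree p hp (k + 1) (Or.inr (by omega))]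
        rw [h2] at h1
        linarith
      have h3 := ih i m (by omega) (by omega) F p1 _ hagree hsum
      calc A.card * r ^ (l + 1) ≤ ((j - i - 1) * (r ^ (j - m - 1) * F.card)) * r ^ (l + 1) :=
            Nat.mul_le_mul_right _ (hcard.trans (Nat.mul_le_mul_left _ hu))
        _ = ((j - i - 1) * r ^ (j - m - 1) * r) * (F.card * r ^ l) := by ring
        _ ≤ (L * r ^ (j - m - 1) * r) * (L ^ l * r ^ (m - i - 1)) := by
            refine Nat.mul_le_mul ?_ h3
            exact Nat.mul_le_mul_right _ (Nat.mul_le_mul_right _ (by omega))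
        _ = L ^ (l + 1) * r ^ ((j - m - 1) + 1 + (m - i - 1)) := by ring
        _ = L ^ (l + 1) * r ^ (j - i - 1) := by congr 2; omega

theorem collide {r l B : ℕ} (hr : 0 < r) (c : ℕ → Fin r → Fin r → ℤ) (hc : ∀ k x y, |c k x y| ≤ B)
    (hbig : (2 * (2 ^ l * B) + 1) * (2 ^ l) ^ l < r ^ l) :
    ∃ i j, i + 2 ≤ j ∧ j ≤ 2 ^ l ∧ ∃ p p' : ℕ → Fin r, p i = p' i ∧ p j = p' j ∧
      (∀ k, i < k → k < j → p k ≠ p' k) ∧
      ∑ k ∈ Ico i j, c k (p k) (p (k + 1)) = ∑ k ∈ Ico i j, c k (p' k) (p' (k + 1)) := by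
  classical
  by_contra hno
  push Not at hno
  have H : ∀ i j, i + 2 ≤ j → j ≤ 2 ^ l → ∀ p p' : ℕ → Fin r, p i = p' i → p j = p' j →
      (∀ k, i < k → k < j → p k ≠ p' k) →
      ∑ k ∈ Ico i j, c k (p k) (p (k + 1)) ≠ ∑ k ∈ Ico i j, c k (p' k) (p' (k + 1)) := by
    intro i j h1 h2 p p' h3 h4 h5
    exact hno i j h1 h2 p p' h3 h4 h5
  set L := 2 ^ l with hL
  have hL1 : 1 ≤ L := Nat.one_le_two_pow
  let ext : (Fin (L - 1) → Fin r) → ℕ → Fin r := fun g k => if h : 0 < k ∧ k < L then g ⟨k - 1, by omega⟩ else ⟨0, hr⟩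
  have hext : Function.Injective ext := by
    intro g g' h
    funext t
    have h1 := congrFun h (t + 1)
    have h2 : 0 < (t : ℕ) + 1 ∧ (t : ℕ) + 1 < L := ⟨by omega, by have := t.2; omega⟩
    simp only [ext, dif_pos h2, Nat.add_sub_cancel] at h1
    exact h1
  set A : Finset (ℕ → Fin r) := univ.image ext with hA
  have hAcard : A.card = r ^ (L - 1) := by
    rw [hA, card_image_of_injective _ hext, card_univ, Fintype.card_fun, Fintype.card_fin, Fintype.card_fin]
  have hAne : A.Nonempty := by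
    rw [← card_pos, hAcard]
    positivity
  obtain ⟨a, -, hacard⟩ := pigeon (s := A) (Icc (-((L * B : ℕ) : ℤ)) ((L * B : ℕ) : ℤ))
    (fun p => ∑ k ∈ Ico 0 L, c k (p k) (p (k + 1))) (by
      intro p _
      have h1 : |∑ k ∈ Ico 0 L, c k (p k) (p (k + 1))| ≤ ((L * B : ℕ) : ℤ) := by
        calc |∑ k ∈ Ico 0 L, c k (p k) (p (k + 1))| ≤ ∑ k ∈ Ico 0 L, |c k (p k) (p (k + 1))| := abs_sum_le_sum_abs _ _
          _ ≤ ∑ k ∈ Ico 0 L, (B : ℤ) := sum_le_sum fun k _ => hc _ _ _
          _ = ((L * B : ℕ) : ℤ) := by rw [sum_const, Nat.card_Ico, nsmul_eq_mul]; push_cast; simp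
      exact mem_Icc.2 (abs_le.1 h1)) hAne
  have h1 := dense c H l 0 L (by omega) le_rfl
    (A.filter fun p => ∑ k ∈ Ico 0 L, c k (p k) (p (k + 1)) = a) (fun _ => ⟨0, hr⟩) a (by
      intro p hp k hk
      obtain ⟨g, -, rfl⟩ := mem_image.1 (mem_filter.1 hp).1
      have : ¬ (0 < k ∧ k < L) := by omega
      simp only [ext, dif_neg this]) (fun p hp => (mem_filter.1 hp).2)
  rw [Int.card_Icc, hAcard] at hacard
  have h2 : (((L * B : ℕ) : ℤ) + 1 - -((L * B : ℕ) : ℤ)).toNat = 2 * (L * B) + 1 := by omega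
  rw [h2] at hacard
  set F := A.filter fun p => ∑ k ∈ Ico 0 L, c k (p k) (p (k + 1)) = a with hF
  rw [Nat.sub_zero] at h1
  have h3 : r ^ (L - 1) * r ^ l ≤ (2 * (L * B) + 1) * L ^ l * r ^ (L - 1) := by
    calc r ^ (L - 1) * r ^ l ≤ ((2 * (L * B) + 1) * F.card) * r ^ l := Nat.mul_le_mul_right _ hacard
      _ = (2 * (L * B) + 1) * (F.card * r ^ l) := by ring
      _ ≤ (2 * (L * B) + 1) * (L ^ l * r ^ (L - 1)) := Nat.mul_le_mul_left _ h1
      _ = _ := by ring
  have h4 : r ^ (L - 1) * ((2 * (L * B) + 1) * L ^ l) < r ^ (L - 1) * r ^ l :=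
    Nat.mul_lt_mul_of_pos_left hbig (by positivity)
  linarith

end Pool.Agent.W2helper70.IW
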