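import Pool.Agent.W2helper70.IW.Low
import Pool.Agent.W2helper70.IW.Paths

set_option autoImplicit false

/-!
At least `n ^ (1 - o (1))` weight functions are needed for polynomially bounded weights.
-/

namespace Pool.Agent.W2helper70.IW

open Finset

variable {V : Type}

/-- `M` covers the vertices in `S` exactly once, by edges of `G` inside `S` -/
def Cov (G : SimpleGraph V) (S : Finset V) (M : Finset (Sym2 V)) : Prop :=
  (∀ e ∈ M, e ∈ G.edgeSet ∧ ∀ x ∈ e, x ∈ S) ∧ ∀ x ∈ S, ∃! e, e ∈ M ∧ x ∈ e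

/-- `S` is a union of components of `G` which has two perfect matchings and all of whose perfect matchings have the
same weight, because of a potential -/
def Tie (w : Sym2 V → ℕ) (G : SimpleGraph V) : Prop :=
  ∃ (S : Finset V) (φ : V → ℤ) (M₁ M₂ : Finset (Sym2 V)), M₁ ≠ M₂ ∧ Cov G S M₁ ∧ Cov G S M₂ ∧
    ∀ x ∈ S, ∀ y, G.Adj x y → y ∈ S ∧ (w s(x, y) : ℤ) = φ x + φ y

theorem Cov.sum {w : Sym2 V → ℕ} {G : SimpleGraph V} {S : Finset V} {φ : V → ℤ} {M : Finset (Sym2 V)}
    (h : Cov G S M) (hφ : ∀ x ∈ S, ∀ y, G.Adj x y → y ∈ S ∧ (w s(x, y) : ℤ) = φ x + φ y) :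
    ∑ e ∈ M, (w e : ℤ) = ∑ x ∈ S, φ x := by
  classical
  have h1 : ∀ e ∈ M, (w e : ℤ) = ∑ x ∈ S, if x ∈ e then φ x else 0 := by
    intro e he
    have h2 := h.1 e he
    induction e using Sym2.inductionOn with
    | hf a b =>
      have hab : G.Adj a b := h2.1
      have ha := h2.2 a (Sym2.mem_mk_left a b)
      have hb := h2.2 b (Sym2.mem_mk_right a b)
      rw [← sum_filter, (hφ a ha b hab).2]
      have h3 : (S.filter fun x => x ∈ s(a, b)) = {a, b} := by
        ext x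
        rw [mem_filter, Sym2.mem_iff, mem_insert, mem_singleton]
        constructor
        · exact fun h => h.2
        · rintro (rfl | rfl)
          · exact ⟨ha, Or.inl rfl⟩
          · exact ⟨hb, Or.inr rfl⟩
      rw [h3, sum_pair hab.ne]
  rw [sum_congr rfl h1, sum_comm]
  refine sum_congr rfl fun x hx => ?_
  obtain ⟨e0, ⟨he0, hxe0⟩, huniq⟩ := h.2 x hx
  rw [sum_eq_single_of_mem e0 he0, if_pos hxe0]
  intro e he hne
  exact if_neg fun hxe => hne (huniq e ⟨he, hxe⟩)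

theorem not_isolates_of_tie {w : Sym2 V → ℕ} {G : SimpleGraph V} (h : Tie w G) : ¬ Isolates w G := by
  classical
  rintro ⟨M, hM, hlt⟩
  obtain ⟨S, φ, M₁, M₂, hne, h₁, h₂, hφ⟩ := h
  set N := M.filter fun e => ∃ x ∈ S, x ∈ e with hN
  have hclosed : ∀ e ∈ G.edgeSet, ∀ x ∈ S, x ∈ e → ∀ y ∈ e, y ∈ S := by
    intro e he x hx hxe y hy
    obtain ⟨z, rfl⟩ := Sym2.mem_iff_exists.1 hxe
    rcases Sym2.mem_iff.1 hy with rfl | rfl
    · exact hx
    · exact (hφ x hx y he).1
  have hNcov : Cov G S N := by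
    refine ⟨fun e he => ?_, fun x hx => ?_⟩
    · rw [hN, mem_filter] at he
      obtain ⟨heM, x, hx, hxe⟩ := he
      exact ⟨hM.1 e heM, hclosed e (hM.1 e heM) x hx hxe⟩
    · obtain ⟨e, ⟨he, hxe⟩, huniq⟩ := hM.2 x
      refine ⟨e, ⟨mem_filter.2 ⟨he, x, hx, hxe⟩, hxe⟩, ?_⟩
      rintro e' ⟨he', hxe'⟩
      exact huniq e' ⟨(mem_filter.1 he').1, hxe'⟩
  obtain ⟨M₀, h₀, hne₀⟩ : ∃ M₀, Cov G S M₀ ∧ M₀ ≠ N := by
    by_cases h : M₁ = N
    · exact ⟨M₂, h₂, fun h' => hne (h.trans h'.symm)⟩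
    · exact ⟨M₁, h₁, h⟩
  have hmeet : ∀ e ∈ M₀, ∃ x ∈ S, x ∈ e := by
    intro e he
    have h3 := (h₀.1 e he).2
    induction e using Sym2.inductionOn with
    | hf a b => exact ⟨a, h3 a (Sym2.mem_mk_left a b), Sym2.mem_mk_left a b⟩
  have hdis : Disjoint (M \ N) M₀ := by
    rw [disjoint_left]
    intro e he he₀
    rw [mem_sdiff] at he
    exact he.2 (mem_filter.2 ⟨he.1, hmeet e he₀⟩)
  have hPM : IsPM G ((M \ N) ∪ M₀) := by
    refine ⟨fun e he => ?_, fun v => ?_⟩
    · rcases mem_union.1 he with he | he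
      · exact hM.1 e (mem_sdiff.1 he).1
      · exact (h₀.1 e he).1
    · by_cases hv : v ∈ S
      · obtain ⟨e, ⟨he, hve⟩, huniq⟩ := h₀.2 v hv
        refine ⟨e, ⟨mem_union_right _ he, hve⟩, ?_⟩
        rintro e' ⟨he', hve'⟩
        rcases mem_union.1 he' with he' | he'
        · rw [mem_sdiff] at he'
          exact (he'.2 (mem_filter.2 ⟨he'.1, v, hv, hve'⟩)).elim
        · exact huniq e' ⟨he', hve'⟩
      · obtain ⟨e, ⟨he, hve⟩, huniq⟩ := hM.2 v
        refine ⟨e, ⟨mem_union_left _ (mem_sdiff.2 ⟨he, fun h => ?_⟩), hve⟩, ?_⟩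
        · exact hv ((hNcov.1 e h).2 v hve)
        · rintro e' ⟨he', hve'⟩
          rcases mem_union.1 he' with he' | he'
          · exact huniq e' ⟨(mem_sdiff.1 he').1, hve'⟩
          · exact (hv ((h₀.1 e' he').2 v hve')).elim
  have hMne : (M \ N) ∪ M₀ ≠ M := by
    intro h
    apply hne₀
    ext e
    constructor
    · intro he
      refine mem_filter.2 ⟨?_, hmeet e he⟩
      rw [← h]
      exact mem_union_right _ he
    · intro he
      have heM : e ∈ (M \ N) ∪ M₀ := by rw [h]; exact (mem_filter.1 he).1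
      rcases mem_union.1 heM with h' | h'
      · exact ((mem_sdiff.1 h').2 he).elim
      · exact h'
  have h3 := hlt _ hPM hMne
  have h4 : ∑ e ∈ (M \ N) ∪ M₀, (w e : ℤ) = ∑ e ∈ M, (w e : ℤ) := by
    rw [sum_union hdis, h₀.sum hφ, ← hNcov.sum hφ]
    exact sum_sdiff (filter_subset _ _)
  have h5 : ∑ e ∈ (M \ N) ∪ M₀, w e = ∑ e ∈ M, w e := by exact_mod_cast h4
  omega

theorem Tie.sup {w : Sym2 V → ℕ} {G₁ G₂ : SimpleGraph V} (hd : ∀ v u u', G₁.Adj v u → G₂.Adj v u' → False)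
    (h : Tie w G₁) : Tie w (G₁ ⊔ G₂) := by
  obtain ⟨S, φ, M₁, M₂, hne, h₁, h₂, hφ⟩ := h
  refine ⟨S, φ, M₁, M₂, hne, ⟨fun e he => ⟨?_, (h₁.1 e he).2⟩, h₁.2⟩, ⟨fun e he => ⟨?_, (h₂.1 e he).2⟩, h₂.2⟩, ?_⟩
  · rw [SimpleGraph.edgeSet_sup]
    exact Or.inl (h₁.1 e he).1
  · rw [SimpleGraph.edgeSet_sup]
    exact Or.inl (h₂.1 e he).1
  · intro x hx y hxy
    rcases hxy with hxy | hxy
    · exact hφ x hx y hxy
    · obtain ⟨e, ⟨he, hxe⟩, -⟩ := h₁.2 x hx
      obtain ⟨z, rfl⟩ := Sym2.mem_iff_exists.1 hxe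
      exact (hd x z y (h₁.1 _ he).1 hxy).elim

/-- the cycle `C 0, C 1, …, C (2 h) = C 0` -/
def ring (C : ℕ → V) (h : ℕ) : SimpleGraph V :=
  SimpleGraph.fromEdgeSet {e | ∃ t < 2 * h, e = s(C t, C (t + 1))}

open Classical in
/-- the first perfect matching of a cycle -/
noncomputable def half (C : ℕ → V) (h : ℕ) : Finset (Sym2 V) :=
  (range h).image fun t => s(C (2 * t), C (2 * t + 1))

theorem half_unique {C : ℕ → V} {h : ℕ} (hC : ∀ a b, a < 2 * h → b < 2 * h → C a = C b → a = b) {u : ℕ}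
    (hu : u < 2 * h) : ∃! e, e ∈ half C h ∧ C u ∈ e := by
  classical
  refine ⟨s(C (2 * (u / 2)), C (2 * (u / 2) + 1)), ⟨mem_image.2 ⟨u / 2, mem_range.2 (by omega), rfl⟩, ?_⟩, ?_⟩
  · rw [Sym2.mem_iff]
    rcases Nat.even_or_odd' u with ⟨k, rfl | rfl⟩
    · left; congr 1; omega
    · right; congr 1; omega
  · rintro e ⟨he, hue⟩
    obtain ⟨t, ht, rfl⟩ := mem_image.1 he
    rw [mem_range] at ht
    rw [Sym2.mem_iff] at hue
    have : u / 2 = t := by
      rcases hue with hue | hue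
      · have := hC _ _ hu (by omega) hue
        omega
      · have := hC _ _ hu (by omega) hue
        omega
    rw [this]

theorem block {w : Sym2 V → ℕ} {C : ℕ → V} {h : ℕ} (h2 : 2 ≤ h) (hC : ∀ a b, a < 2 * h → b < 2 * h → C a = C b → a = b)
    (hC0 : C (2 * h) = C 0) (f : ℕ → ℤ) (hf : ∀ t < 2 * h, f t + f (t + 1) = w s(C t, C (t + 1)))
    (hf0 : f (2 * h) = f 0) {X Y : Finset V} (hX : ∀ t < h, C (2 * t) ∈ X)
    (hY : ∀ t < h, C (2 * t + 1) ∈ Y) :
    ∃ X' Y' : Finset V, X' ⊆ X ∧ Y' ⊆ Y ∧ X'.card = h ∧ Y'.card = h ∧ Nice (ring C h) X' Y' ∧ Tie w (ring C h) := by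
  classical
  set X' : Finset V := (range h).image fun t => C (2 * t) with hX'
  set Y' : Finset V := (range h).image fun t => C (2 * t + 1) with hY'
  have hXX : X' ⊆ X := by
    intro x hx
    obtain ⟨t, ht, rfl⟩ := mem_image.1 hx
    exact hX t (mem_range.1 ht)
  have hYY : Y' ⊆ Y := by
    intro x hx
    obtain ⟨t, ht, rfl⟩ := mem_image.1 hx
    exact hY t (mem_range.1 ht)
  have hcX : X'.card = h := by
    rw [hX', card_image_of_injOn, card_range]
    intro a ha b hb hab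
    rw [coe_range, Set.mem_Iio] at ha hb
    have := hC _ _ (by omega) (by omega) hab
    omega
  have hcY : Y'.card = h := by
    rw [hY', card_image_of_injOn, card_range]
    intro a ha b hb hab
    rw [coe_range, Set.mem_Iio] at ha hb
    have := hC _ _ (by omega) (by omega) hab
    omega
  have hCX : ∀ t ≤ 2 * h, Even t → C t ∈ X' := by
    rintro t ht ⟨k, rfl⟩
    by_cases hk : k < h
    · exact mem_image.2 ⟨k, mem_range.2 hk, by congr 1; omega⟩
    · rw [show k + k = 2 * h by omega, hC0]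
      exact mem_image.2 ⟨0, mem_range.2 (by omega), rfl⟩
  have hCY : ∀ t ≤ 2 * h, ¬ Even t → C t ∈ Y' := by
    intro t ht hodd
    obtain ⟨k, rfl⟩ := Nat.not_even_iff_odd.1 hodd
    exact mem_image.2 ⟨k, mem_range.2 (by omega), rfl⟩
  have hmem : ∀ v, v ∈ X' ∨ v ∈ Y' → ∃ u < 2 * h, C u = v := by
    intro v hv
    rcases hv with hv | hv
    · obtain ⟨t, ht, rfl⟩ := mem_image.1 hv
      exact ⟨2 * t, by have := mem_range.1 ht; omega, rfl⟩
    · obtain ⟨t, ht, rfl⟩ := mem_image.1 hv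
      exact ⟨2 * t + 1, by have := mem_range.1 ht; omega, rfl⟩
  have hin : ∀ t ≤ 2 * h, C t ∈ X' ∨ C t ∈ Y' := by
    intro t ht
    by_cases he : Even t
    · exact Or.inl (hCX t ht he)
    · exact Or.inr (hCY t ht he)
  have hneq : ∀ t < 2 * h, C t ≠ C (t + 1) := by
    intro t ht heq
    by_cases ht' : t + 1 < 2 * h
    · have := hC _ _ ht ht' heq
      omega
    · rw [show t + 1 = 2 * h by omega, hC0] at heq
      have := hC _ _ ht (by omega) heq
      omega
  have hedge : ∀ t < 2 * h, s(C t, C (t + 1)) ∈ (ring C h).edgeSet := by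
    intro t ht
    rw [ring, SimpleGraph.edgeSet_fromEdgeSet]
    refine ⟨⟨t, ht, rfl⟩, ?_⟩
    exact fun hd => hneq t ht (Sym2.mk_isDiag_iff.1 hd)
  have hadj : ∀ x y, (ring C h).Adj x y → ∃ t < 2 * h, (x = C t ∧ y = C (t + 1)) ∨ (x = C (t + 1) ∧ y = C t) := by
    intro x y hxy
    rw [ring, SimpleGraph.fromEdgeSet_adj] at hxy
    obtain ⟨⟨t, ht, he⟩, -⟩ := hxy
    exact ⟨t, ht, Sym2.eq_iff.1 he⟩
  have hcov1 : ∀ e ∈ half C h, e ∈ (ring C h).edgeSet ∧ ∀ x ∈ e, x ∈ X' ∪ Y' := by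
    intro e he
    obtain ⟨t, ht, rfl⟩ := mem_image.1 he
    rw [mem_range] at ht
    refine ⟨hedge _ (by omega), fun x hx => ?_⟩
    rw [mem_union]
    rcases Sym2.mem_iff.1 hx with rfl | rfl
    · exact hin _ (by omega)
    · exact hin _ (by omega)
  have hC' : ∀ a b, a < 2 * h → b < 2 * h → C (a + 1) = C (b + 1) → a = b := by
    intro a b ha hb hab
    by_cases ha' : a + 1 < 2 * h
    · by_cases hb' : b + 1 < 2 * h
      · have := hC _ _ ha' hb' hab
        omega
      · rw [show b + 1 = 2 * h by omega, hC0] at hab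
        have := hC _ _ ha' (by omega) hab
        omega
    · by_cases hb' : b + 1 < 2 * h
      · rw [show a + 1 = 2 * h by omega, hC0] at hab
        have := hC _ _ (by omega) hb' hab
        omega
      · omega
  have hcov2 : ∀ e ∈ half (fun t => C (t + 1)) h, e ∈ (ring C h).edgeSet ∧ ∀ x ∈ e, x ∈ X' ∪ Y' := by
    intro e he
    obtain ⟨t, ht, rfl⟩ := mem_image.1 he
    rw [mem_range] at ht
    refine ⟨hedge _ (by omega), fun x hx => ?_⟩
    rw [mem_union]
    rcases Sym2.mem_iff.1 hx with rfl | rfl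
    · exact hin _ (by omega)
    · exact hin _ (by omega)
  have hC1 : Cov (ring C h) (X' ∪ Y') (half C h) := by
    refine ⟨hcov1, fun x hx => ?_⟩
    obtain ⟨u, hu, rfl⟩ := hmem x (mem_union.1 hx)
    exact half_unique hC hu
  have hC2 : Cov (ring C h) (X' ∪ Y') (half (fun t => C (t + 1)) h) := by
    refine ⟨hcov2, fun x hx => ?_⟩
    obtain ⟨u, hu, rfl⟩ := hmem x (mem_union.1 hx)
    rcases Nat.eq_zero_or_pos u with rfl | hu0
    · rw [← hC0]
      have := half_unique (C := fun t => C (t + 1)) hC' (u := 2 * h - 1) (by omega)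
      simpa only [show 2 * h - 1 + 1 = 2 * h by omega] using this
    · have := half_unique (C := fun t => C (t + 1)) hC' (u := u - 1) (by omega)
      simpa only [show u - 1 + 1 = u by omega] using this
  refine ⟨X', Y', hXX, hYY, hcX, hcY, ⟨?_, ?_, ?_⟩, ?_⟩
  · intro x y hxy
    obtain ⟨t, ht, ⟨rfl, rfl⟩ | ⟨rfl, rfl⟩⟩ := hadj x y hxy
    · by_cases he : Even t
      · exact Or.inl ⟨hCX t (by omega) he, hCY (t + 1) (by omega) (by rw [Nat.even_add_one]; simpa using he)⟩
      · exact Or.inr ⟨hCY t (by omega) he, hCX (t + 1) (by omega) (by rw [Nat.even_add_one]; exact he)⟩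
    · by_cases he : Even t
      · exact Or.inr ⟨hCY (t + 1) (by omega) (by rw [Nat.even_add_one]; simpa using he), hCX t (by omega) he⟩
      · exact Or.inl ⟨hCX (t + 1) (by omega) (by rw [Nat.even_add_one]; exact he), hCY t (by omega) he⟩
  · intro v
    by_cases hv : ∃ u < 2 * h, C u = v
    · obtain ⟨u, hu, rfl⟩ := hv
      refine ⟨C (u + 1), if u = 0 then C (2 * h - 1) else C (u - 1), fun y hy => ?_⟩
      obtain ⟨t, ht, ⟨h3, rfl⟩ | ⟨h3, rfl⟩⟩ := hadj _ _ hy
      · left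
        rw [hC _ _ hu ht h3]
      · right
        by_cases ht' : t + 1 < 2 * h
        · have := hC _ _ hu ht' h3
          rw [if_neg (by omega)]
          congr 1
          omega
        · rw [show t + 1 = 2 * h by omega, hC0] at h3
          have := hC _ _ hu (by omega) h3
          rw [if_pos this]
          congr 1
          omega
    · refine ⟨v, v, fun y hy => ?_⟩
      obtain ⟨t, ht, ⟨h3, rfl⟩ | ⟨h3, rfl⟩⟩ := hadj _ _ hy
      · exact (hv ⟨t, ht, h3.symm⟩).elim
      · exact (hv (hmem v (h3 ▸ hin (t + 1) (by omega)))).elim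
  · refine ⟨half C h, fun e he => (hcov1 e he).1, fun v hv => ?_⟩
    obtain ⟨u, hu, rfl⟩ := hmem v hv
    exact half_unique hC hu
  · set φ : V → ℤ := fun v => if hv : ∃ u < 2 * h, C u = v then f hv.choose else 0 with hφ
    have hφC : ∀ u ≤ 2 * h, φ (C u) = f u := by
      intro u hu
      by_cases hu' : u < 2 * h
      · have hex : ∃ u' < 2 * h, C u' = C u := ⟨u, hu', rfl⟩
        simp only [hφ, dif_pos hex]
        rw [hC _ _ hex.choose_spec.1 hu' hex.choose_spec.2]
      · have hu2 : u = 2 * h := by omega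
        have hex : ∃ u' < 2 * h, C u' = C u := ⟨0, by omega, by rw [hu2, hC0]⟩
        simp only [hφ, dif_pos hex]
        have : hex.choose = 0 := hC _ _ hex.choose_spec.1 (by omega) (by rw [hex.choose_spec.2, hu2, hC0])
        rw [this, hu2, hf0]
    refine ⟨X' ∪ Y', φ, half C h, half (fun t => C (t + 1)) h, ?_, hC1, hC2, ?_⟩
    · intro heq
      have h3 : s(C 0, C 1) ∈ half (fun t => C (t + 1)) h := by
        rw [← heq]
        exact mem_image.2 ⟨0, mem_range.2 (by omega), rfl⟩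
      obtain ⟨t, ht, h4⟩ := mem_image.1 h3
      rw [mem_range] at ht
      rw [Sym2.eq_iff] at h4
      rcases h4 with ⟨h4, -⟩ | ⟨h4, h5⟩
      · have := hC _ _ (by omega) (by omega) h4
        omega
      · have h6 := hC _ _ (by omega) (by omega) h4
        have h7 : t = 0 := by omega
        subst h7
        have := hC _ _ (by omega) (by omega) h5
        omega
    · intro x hx y hxy
      obtain ⟨t, ht, ⟨rfl, rfl⟩ | ⟨rfl, rfl⟩⟩ := hadj x y hxy
      · refine ⟨mem_union.2 (hin _ (by omega)), ?_⟩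
        rw [hφC _ (by omega), hφC _ (by omega), ← hf t ht]
      · refine ⟨mem_union.2 (hin _ (by omega)), ?_⟩
        rw [hφC _ (by omega), hφC _ (by omega), Sym2.eq_swap, ← hf t ht, add_comm]

end Pool.Agent.W2helper70.IW
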