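import Pool.Agent.W2helper70.IW.Defs

set_option autoImplicit false

/-!
Small isolating families of weight functions with small weights.
-/

namespace Pool.Agent.W2helper70.IW

open Finset

variable {V : Type}

theorem IsPM.eq_of_subset {G : SimpleGraph V} {S M : Finset (Sym2 V)} (hS : IsPM G S) (hM : IsPM G M)
    (h : S ⊆ M) : M = S := by
  refine (Subset.antisymm h ?_).symm
  intro e he
  induction e using Sym2.inductionOn with
  | hf a b =>
    obtain ⟨e', ⟨he', hv⟩, -⟩ := hS.2 a
    obtain ⟨e0, -, huniq⟩ := hM.2 a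
    have h1 := huniq e' ⟨h he', hv⟩
    have h2 := huniq s(a, b) ⟨he, Sym2.mem_mk_left a b⟩
    rw [h2, ← h1]
    exact he'

theorem IsPM.card [Fintype V] [DecidableEq V] {G : SimpleGraph V} {M : Finset (Sym2 V)} (hM : IsPM G M) :
    2 * M.card = Fintype.card V := by
  classical
  have h1 : ∑ v : V, (M.filter fun e => v ∈ e).card = ∑ e ∈ M, (univ.filter fun v : V => v ∈ e).card := by
    simp only [card_filter]
    exact sum_comm
  have h2 : ∀ v : V, (M.filter fun e => v ∈ e).card = 1 := by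
    intro v
    obtain ⟨e0, he0, huniq⟩ := hM.2 v
    rw [card_eq_one]
    refine ⟨e0, ?_⟩
    ext e
    rw [mem_filter, mem_singleton]
    exact ⟨fun h => huniq e h, fun h => h ▸ he0⟩
  have h3 : ∀ e ∈ M, (univ.filter fun v : V => v ∈ e).card = 2 := by
    intro e he
    have h4 : ¬ e.IsDiag := G.not_isDiag_of_mem_edgeSet (hM.1 e he)
    have h5 : (univ.filter fun v : V => v ∈ e) = e.toFinset := by
      ext v
      simp
    rw [h5]
    exact Sym2.card_toFinset_of_not_isDiag e h4
  rw [sum_congr rfl fun v _ => h2 v, sum_congr rfl h3] at h1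
  simp only [sum_const, card_univ, smul_eq_mul, mul_one] at h1
  omega

theorem exists_min [Finite V] {G : SimpleGraph V} (h : ∃ M, IsPM G M) (w : Sym2 V → ℕ) :
    ∃ S, IsPM G S ∧ ∀ M, IsPM G M → ∑ e ∈ S, w e ≤ ∑ e ∈ M, w e := by
  classical
  have : Fintype V := Fintype.ofFinite V
  obtain ⟨M0, hM0⟩ := h
  obtain ⟨S, hS, hmin⟩ := exists_min_image (univ.filter fun M : Finset (Sym2 V) => IsPM G M)
    (fun M => ∑ e ∈ M, w e) ⟨M0, mem_filter.2 ⟨mem_univ _, hM0⟩⟩
  exact ⟨S, (mem_filter.1 hS).2, fun M hM => hmin M (mem_filter.2 ⟨mem_univ _, hM⟩)⟩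

open Classical in
/-- lowering the weights of `S` by one -/
noncomputable def lessen (S : Finset (Sym2 V)) (w : Sym2 V → ℕ) : Sym2 V → ℕ :=
  fun e => if e ∈ S then w e - 1 else w e

theorem lessen_unique {G : SimpleGraph V} {S : Finset (Sym2 V)} {w : Sym2 V → ℕ} (hw : ∀ e ∈ G.edgeSet, 1 ≤ w e)
    (hS : IsPM G S) (hmin : ∀ M, IsPM G M → ∑ e ∈ S, w e ≤ ∑ e ∈ M, w e) :
    ∀ M, IsPM G M → M ≠ S → ∑ e ∈ S, lessen S w e < ∑ e ∈ M, lessen S w e := by
  classical
  intro M hM hne
  have h1 : ∀ X : Finset (Sym2 V), (∀ e ∈ X, e ∈ G.edgeSet) →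
      ∑ e ∈ X, lessen S w e + (X ∩ S).card = ∑ e ∈ X, w e := by
    intro X hX
    have h2 : (X ∩ S).card = ∑ e ∈ X, if e ∈ S then 1 else 0 := by
      rw [← card_filter]
      congr 1
    rw [h2, ← sum_add_distrib]
    refine sum_congr rfl fun e he => ?_
    unfold lessen
    have := hw e (hX e he)
    split_ifs <;> omega
  have h2 := h1 S hS.1
  have h3 := h1 M hM.1
  have h4 := hmin M hM
  rw [inter_self] at h2
  have h5 : (M ∩ S).card < S.card := by
    refine card_lt_card ⟨inter_subset_right, fun h => hne ?_⟩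
    exact hS.eq_of_subset hM fun e he => (mem_inter.1 (h he)).1
  omega

open Classical in
/-- **The isolation lemma with geometric weights.** -/
theorem weighted [Fintype V] [DecidableEq V] (G : SimpleGraph V) (hG : ∃ M, IsPM G M) (B : ℕ) {q y : ℝ}
    (hq0 : 0 < q) (hy1 : y ≤ 1) (hy : q ^ B ≤ y * ∑ k ∈ range (B + 1), q ^ (B - k)) {n : ℕ}
    (hn : Fintype.card V = 2 * n) :
    q ^ n * (1 - y) ^ G.edgeSet.ncard *
        ∑ w ∈ Fintype.piFinset (fun _ : Sym2 V => range (B + 1)), ∏ e, q ^ (B - w e) ≤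
      ∑ w ∈ Fintype.piFinset (fun _ : Sym2 V => range (B + 1)) with Isolates w G, ∏ e, q ^ (B - w e) := by
  choose S hS hmin using fun w : Sym2 V → ℕ => exists_min hG w
  have hcard : ∀ w, (S w).card = n := by
    intro w
    have := (hS w).card
    omega
  set t : Sym2 V → Finset ℕ := fun e => if e ∈ G.edgeSet then Icc 1 B else range (B + 1) with ht
  set Z : ℝ := ∑ k ∈ range (B + 1), q ^ (B - k) with hZ
  set Z' : ℝ := ∑ k ∈ Icc 1 B, q ^ (B - k) with hZ'
  have hZZ : Z = q ^ B + Z' := by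
    rw [hZ, range_eq_Ico, sum_eq_sum_Ico_succ_bot (by omega), Nat.sub_zero, hZ']
    congr 1
  have hZ0 : 0 ≤ Z := sum_nonneg fun k _ => by positivity
  have hZ'Z : (1 - y) * Z ≤ Z' := by linarith
  have htot : ∑ w ∈ Fintype.piFinset (fun _ : Sym2 V => range (B + 1)), ∏ e, q ^ (B - w e) =
      ∏ _e : Sym2 V, Z := by
    exact (prod_univ_sum (fun _ : Sym2 V => range (B + 1)) (fun _ k => q ^ (B - k))).symm
  have h1 : (1 - y) ^ G.edgeSet.ncard * ∏ _e : Sym2 V, Z ≤ ∑ w ∈ Fintype.piFinset t, ∏ e, q ^ (B - w e) := by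
    rw [← prod_univ_sum t (fun _ k => q ^ (B - k))]
    have h2 : (1 - y) ^ G.edgeSet.ncard = ∏ e : Sym2 V, if e ∈ G.edgeSet then (1 - y) else 1 := by
      rw [prod_ite, prod_const, prod_const_one, mul_one, Set.ncard_eq_toFinset_card']
      congr 2
      ext e
      simp
    rw [h2, ← prod_mul_distrib]
    refine prod_le_prod (fun e _ => ?_) (fun e _ => ?_)
    · split_ifs
      · exact mul_nonneg (by linarith) hZ0
      · linarith
    · simp only [ht]
      split_ifs
      · exact hZ'Z
      · rw [one_mul]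
  have hC1 : ∀ w ∈ Fintype.piFinset t, (∀ e, w e ≤ B) ∧ ∀ e ∈ G.edgeSet, 1 ≤ w e := by
    intro w hw
    rw [Fintype.mem_piFinset] at hw
    refine ⟨fun e => ?_, fun e he => ?_⟩
    · have := hw e
      simp only [ht] at this
      split_ifs at this
      · exact (mem_Icc.1 this).2
      · have := mem_range.1 this
        omega
    · have := hw e
      simp only [ht, if_pos he] at this
      exact (mem_Icc.1 this).1
  have hinj : Set.InjOn (fun w : Sym2 V → ℕ => lessen (S w) w)
      (Fintype.piFinset t : Finset (Sym2 V → ℕ)) := by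
    intro w hw w' hw' h
    have hw1 := hC1 w (mem_coe.1 hw)
    have hw1' := hC1 w' (mem_coe.1 hw')
    have h : lessen (S w) w = lessen (S w') w' := h
    have hSS : S w = S w' := by
      by_contra hne
      have h2 := lessen_unique hw1.2 (hS w) (hmin w) (S w') (hS w') (fun h => hne h.symm)
      have h3 := lessen_unique hw1'.2 (hS w') (hmin w') (S w) (hS w) hne
      rw [h] at h2
      omega
    funext e
    have h2 := congrFun h e
    unfold lessen at h2
    rw [hSS] at h2
    by_cases he : e ∈ S w'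
    · have h3 := hw1.2 e ((hS w').1 e he)
      have h4 := hw1'.2 e ((hS w').1 e he)
      rw [if_pos he, if_pos he] at h2
      omega
    · rw [if_neg he, if_neg he] at h2
      exact h2
  calc q ^ n * (1 - y) ^ G.edgeSet.ncard *
        ∑ w ∈ Fintype.piFinset (fun _ : Sym2 V => range (B + 1)), ∏ e, q ^ (B - w e)
      = q ^ n * ((1 - y) ^ G.edgeSet.ncard * ∏ _e : Sym2 V, Z) := by rw [htot, mul_assoc]
    _ ≤ q ^ n * ∑ w ∈ Fintype.piFinset t, ∏ e, q ^ (B - w e) := mul_le_mul_of_nonneg_left h1 (by positivity)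
    _ = ∑ w ∈ Fintype.piFinset t, ∏ e, q ^ (B - lessen (S w) w e) := by
        rw [mul_sum]
        refine sum_congr rfl fun w hw => ?_
        have h2 : ∀ e, q ^ (B - lessen (S w) w e) = (if e ∈ S w then q else 1) * q ^ (B - w e) := by
          intro e
          have h3 := hC1 w hw
          unfold lessen
          split_ifs with h4
          · have h5 := h3.1 e
            have h6 := h3.2 e ((hS w).1 e h4)
            rw [← pow_succ']
            congr 1
            omega
          · rw [one_mul]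
        rw [prod_congr rfl fun e _ => h2 e, prod_mul_distrib, prod_ite_mem, univ_inter, prod_const, hcard]
    _ = ∑ w ∈ (Fintype.piFinset t).image (fun w => lessen (S w) w), ∏ e, q ^ (B - w e) := by
        rw [sum_image hinj]
    _ ≤ _ := by
        refine sum_le_sum_of_subset_of_nonneg ?_ fun w _ _ => prod_nonneg fun e _ => by positivity
        intro u hu
        obtain ⟨w, hw, rfl⟩ := mem_image.1 hu
        have hw1 := hC1 w hw
        rw [mem_filter, Fintype.mem_piFinset]
        refine ⟨fun e => ?_, S w, hS w, fun M hM hne => ?_⟩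
        · rw [mem_range]
          have := hw1.1 e
          unfold lessen
          split_ifs <;> omega
        · exact lessen_unique hw1.2 (hS w) (hmin w) M hM hne

open Classical in
/-- the number of graphs with at most `m` edges -/
theorem card_graphs [Fintype V] [DecidableEq V] (m : ℕ) (A : Finset (SimpleGraph V))
    (hA : ∀ G ∈ A, G.edgeSet.ncard ≤ m) : A.card ≤ (Fintype.card (Sym2 V) + 1) ^ m := by
  have h1 : ∀ G : SimpleGraph V, G.edgeSet.ncard ≤ m →
      ∃ f : Fin m → Option (Sym2 V), ∀ e, e ∈ G.edgeSet ↔ ∃ i, f i = some e := by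
    intro G hG
    set E : Finset (Sym2 V) := univ.filter fun e => e ∈ G.edgeSet with hE
    have hcard : E.card = G.edgeSet.ncard := by
      rw [Set.ncard_eq_toFinset_card']
      congr 1
      ext e
      simp [hE]
    refine ⟨fun i => if h : (i : ℕ) < E.card then some (E.equivFin.symm ⟨i, h⟩ : Sym2 V) else none, fun e => ?_⟩
    constructor
    · intro he
      have heE : e ∈ E := by simp [hE, he]
      have h2 := (E.equivFin ⟨e, heE⟩).2
      refine ⟨⟨E.equivFin ⟨e, heE⟩, by omega⟩, ?_⟩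
      simp only [dif_pos h2]
      simp
    · rintro ⟨i, hi⟩
      dsimp only at hi
      split_ifs at hi with h
      have h2 := (E.equivFin.symm ⟨i, h⟩).2
      rw [Option.some.injEq] at hi
      rw [hi] at h2
      simpa [hE] using h2
  have h2 : ∀ G : A, ∃ f : Fin m → Option (Sym2 V), ∀ e, e ∈ (G : SimpleGraph V).edgeSet ↔ ∃ i, f i = some e :=
    fun G => h1 G (hA G G.2)
  choose f hf using h2
  have hinj : Function.Injective f := by
    intro G G' h
    apply Subtype.ext
    apply SimpleGraph.edgeSet_injective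
    ext e
    rw [hf G e, hf G' e, h]
  have h3 := Fintype.card_le_of_injective f hinj
  rw [Fintype.card_fun, Fintype.card_option, Fintype.card_fin, Fintype.card_coe] at h3
  exact h3

open Classical in
theorem upper_aux [Fintype V] [DecidableEq V] {n B m : ℕ} (hn : Fintype.card V = 2 * n) {q y : ℝ}
    (hq0 : 0 < q) (hq1 : q ≤ 1) (hy0 : 0 ≤ y) (hy1 : y < 1) (hy : q ^ B ≤ y * ∑ k ∈ range (B + 1), q ^ (B - k))
    (A : Finset (SimpleGraph V)) (hA : ∀ G ∈ A, G.edgeSet.ncard ≤ m)
    (hApm : ∀ G ∈ A, ∃ M, IsPM G M) (hAne : A.Nonempty) :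
    ∃ (T : ℕ) (W : Fin T → Sym2 V → ℕ), (∀ t e, W t e ≤ B) ∧ (∀ G ∈ A, ∃ t, Isolates (W t) G) ∧
      (T : ℝ) ≤ 1 + Real.log A.card * (1 / (q ^ n * (1 - y) ^ m)) := by
  set p : ℝ := q ^ n * (1 - y) ^ m with hp
  have h1x : 0 < 1 - y := by linarith
  have hp0 : 0 < p := by positivity
  have hp1 : p ≤ 1 := by
    have h1 : q ^ n ≤ 1 := pow_le_one₀ hq0.le hq1
    have h2 : (1 - y) ^ m ≤ 1 := pow_le_one₀ h1x.le (by linarith)
    rw [hp]
    calc q ^ n * (1 - y) ^ m ≤ 1 * 1 := mul_le_mul h1 h2 (by positivity) zero_le_one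
      _ = 1 := one_mul 1
  have hcard1 : (1 : ℝ) ≤ A.card := by exact_mod_cast hAne.card_pos
  have hlog : 0 ≤ Real.log A.card := Real.log_nonneg hcard1
  set T : ℕ := ⌊Real.log A.card / p⌋₊ + 1 with hT
  obtain ⟨f, hf, hle⟩ := greedy A (Fintype.piFinset (fun _ : Sym2 V => range (B + 1)))
    (fun w => ∏ e, q ^ (B - w e)) (fun w _ => prod_nonneg fun e _ => by positivity)
    (sum_pos (fun w _ => prod_pos fun e _ => by positivity) ⟨fun _ => 0, by simp⟩)
    (fun G w => Isolates w G) p hp1 (by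
      intro G hG
      refine le_trans ?_ (weighted G (hApm G hG) B hq0 hy1.le hy hn)
      refine mul_le_mul_of_nonneg_right ?_ (sum_nonneg fun w _ => prod_nonneg fun e _ => by positivity)
      rw [hp]
      refine mul_le_mul_of_nonneg_left ?_ (by positivity)
      exact pow_le_pow_of_le_one h1x.le (by linarith) (hA G hG)) T
  refine ⟨T, f, fun t e => ?_, ?_, ?_⟩
  · have := Fintype.mem_piFinset.1 (hf t) e
    have := mem_range.1 this
    omega
  · intro G hG
    by_contra hno
    push Not at hno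
    have h1 : (1 : ℝ) ≤ ((A.filter fun a => ∀ t, ¬ Isolates (f t) a).card : ℕ) := by
      have : 0 < (A.filter fun a => ∀ t, ¬ Isolates (f t) a).card :=
        card_pos.2 ⟨G, mem_filter.2 ⟨hG, hno⟩⟩
      exact_mod_cast this
    have h2 : (1 - p) ^ T ≤ Real.exp (-(p * T)) := by
      calc (1 - p) ^ T ≤ Real.exp (-p) ^ T := by
            refine pow_le_pow_left₀ (by linarith) ?_ T
            have := Real.add_one_le_exp (-p)
            linarith
        _ = Real.exp (-(p * T)) := by rw [← Real.exp_nat_mul]; congr 1; ring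
    have h3 : Real.log A.card < p * T := by
      have h4 : Real.log A.card / p < T := by
        rw [hT]
        push_cast
        exact Nat.lt_floor_add_one _
      rw [div_lt_iff₀ hp0] at h4
      linarith
    have h5 : (A.card : ℝ) * Real.exp (-(p * T)) < 1 := by
      rw [Real.exp_neg, ← div_eq_mul_inv, div_lt_one (Real.exp_pos _)]
      rw [← Real.exp_log (show (0 : ℝ) < A.card by linarith)]
      exact Real.exp_lt_exp.2 h3
    have h6 : (A.card : ℝ) * (1 - p) ^ T ≤ A.card * Real.exp (-(p * T)) := by gcongr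
    linarith
  · have h1 : (T : ℝ) ≤ Real.log A.card / p + 1 := by
      rw [hT]
      push_cast
      have := Nat.floor_le (div_nonneg hlog hp0.le)
      linarith
    rw [mul_one_div]
    linarith

theorem params {n B m : ℕ} (hn : 0 < n) (hB : 0 < B) (hm : n ≤ m) :
    ∃ q y : ℝ, 0 < q ∧ q ≤ 1 ∧ 0 ≤ y ∧ y < 1 ∧ q ^ B ≤ y * ∑ k ∈ range (B + 1), q ^ (B - k) ∧
      1 / (q ^ n * (1 - y) ^ m) ≤ (4 * m / n : ℝ) ^ (2 * (n : ℝ) / B) := by
  have hn1 : (1 : ℝ) ≤ n := by exact_mod_cast hn
  have hn0 : (0 : ℝ) < n := by linarith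
  have hB1 : (1 : ℝ) ≤ B := by exact_mod_cast hB
  have hB0 : (0 : ℝ) < B := by linarith
  have hmn : (n : ℝ) ≤ m := by exact_mod_cast hm
  have hm0 : (0 : ℝ) < m := by linarith
  have hratio : (4 : ℝ) ≤ 4 * m / n := by
    rw [le_div_iff₀ hn0]
    linarith
  set l : ℝ := Real.log (4 * m / n) with hl
  have hl0 : 0 < l := Real.log_pos (by linarith)
  have hexpl : Real.exp l = 4 * m / n := Real.exp_log (by linarith)
  obtain ⟨x, hx⟩ : ∃ x : ℝ, x = n / (4 * m) := ⟨_, rfl⟩
  have hx0 : 0 < x := by rw [hx]; positivity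
  have hx4 : x ≤ 1 / 4 := by
    rw [hx, div_le_div_iff₀ (by positivity) (by norm_num)]
    linarith
  have h1x0 : 0 < 1 - x := by linarith
  have hexpx : Real.exp (-l) = x := by
    rw [Real.exp_neg, hexpl, hx, inv_div]
  obtain ⟨q, hq⟩ : ∃ q : ℝ, q = Real.exp (-(l / B)) := ⟨_, rfl⟩
  have hq0 : 0 < q := by rw [hq]; exact Real.exp_pos _
  have hlB : 0 < l / B := by positivity
  have hq1 : q < 1 := by
    rw [hq, Real.exp_lt_one_iff]
    linarith
  have hqB : q ^ B = x := by
    rw [hq, ← Real.exp_nat_mul, ← hexpx]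
    congr 1
    field_simp
  have hqn : q ^ n = Real.exp (-(l * n / B)) := by
    rw [hq, ← Real.exp_nat_mul]
    congr 1
    ring
  obtain ⟨y, hy⟩ : ∃ y : ℝ, y = x * l / ((1 - x) * B) := ⟨_, rfl⟩
  have h1x : 3 / 4 ≤ 1 - x := by linarith
  have hy0 : 0 < y := by rw [hy]; positivity
  have hxl : x * l ≤ 1 / 2 := by
    have h1 : 2 * l ≤ Real.exp l := by
      have h2 := Real.quadratic_le_exp_of_nonneg hl0.le
      have h3 := sq_nonneg (l - 1)
      have h4 : (l - 1) ^ 2 = l ^ 2 - 2 * l + 1 := by ring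
      linarith
    rw [← hexpx, Real.exp_neg]
    rw [inv_mul_le_iff₀ (Real.exp_pos _)]
    linarith
  have hymul : y * ((1 - x) * B) = x * l := by
    rw [hy, div_mul_cancel₀]
    positivity
  have hB34 : 3 / 4 ≤ (1 - x) * B := by
    calc (3 : ℝ) / 4 = 3 / 4 * 1 := by ring
      _ ≤ (1 - x) * B := mul_le_mul h1x hB1 (by norm_num) h1x0.le
  have hy23 : y ≤ 2 / 3 := by
    have h1 : y * (3 / 4) ≤ y * ((1 - x) * B) := mul_le_mul_of_nonneg_left hB34 hy0.le
    linarith
  have h1y : 0 < 1 - y := by linarith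
  refine ⟨q, y, hq0, hq1.le, hy0.le, by linarith, ?_, ?_⟩
  · have h1 : ∑ k ∈ range (B + 1), q ^ (B - k) = ∑ k ∈ range (B + 1), q ^ k := by
      have := sum_range_reflect (fun k => q ^ k) (B + 1)
      rw [← this]
      refine sum_congr rfl fun k _ => ?_
      congr 1
    rw [h1, hqB]
    have h2 := mul_neg_geom_sum q (B + 1)
    have h3 : q ^ (B + 1) ≤ x := by
      rw [pow_succ, hqB]
      exact mul_le_of_le_one_right hx0.le hq1.le
    have h4 : 1 - q ≤ l / B := by
      have := Real.add_one_le_exp (-(l / B))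
      rw [← hq] at this
      linarith
    set Z := ∑ k ∈ range (B + 1), q ^ k with hZ
    have hZ0 : 0 ≤ Z := sum_nonneg fun k _ => by positivity
    have h5 : 1 - x ≤ (l / B) * Z := by
      calc 1 - x ≤ 1 - q ^ (B + 1) := by linarith
        _ = (1 - q) * Z := h2.symm
        _ ≤ (l / B) * Z := mul_le_mul_of_nonneg_right h4 hZ0
    have h6 : y * Z = x * ((l / B) * Z) / (1 - x) := by
      rw [hy]
      have := h1x0.ne'
      field_simp
    rw [h6, le_div_iff₀ h1x0]
    exact mul_le_mul_of_nonneg_left h5 hx0.le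
  · have h4 : (1 / (1 - y)) ^ m ≤ Real.exp (l * n / B) := by
      have h5 : 1 / (1 - y) ≤ Real.exp (3 * y) := by
        rw [div_le_iff₀ h1y]
        have h6 := Real.add_one_le_exp (3 * y)
        have h7 : (3 * y + 1) * (1 - y) ≤ Real.exp (3 * y) * (1 - y) :=
          mul_le_mul_of_nonneg_right h6 h1y.le
        have h8 : 0 ≤ y * (2 - 3 * y) := mul_nonneg hy0.le (by linarith)
        have h9 : (3 * y + 1) * (1 - y) = 1 + y * (2 - 3 * y) := by ring
        linarith
      calc (1 / (1 - y)) ^ m ≤ Real.exp (3 * y) ^ m := pow_le_pow_left₀ (by positivity) h5 m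
        _ = Real.exp (m * (3 * y)) := by rw [← Real.exp_nat_mul]
        _ ≤ Real.exp (l * n / B) := by
            refine Real.exp_le_exp.2 ?_
            rw [le_div_iff₀ hB0]
            have h8 : y * B * (3 / 4) ≤ x * l := by
              rw [← hymul]
              calc y * B * (3 / 4) ≤ y * B * (1 - x) :=
                    mul_le_mul_of_nonneg_left h1x (mul_nonneg hy0.le hB0.le)
                _ = y * ((1 - x) * B) := by ring
            have h9 : (m : ℝ) * x = n / 4 := by
              rw [hx]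
              field_simp
            calc (m : ℝ) * (3 * y) * B = 4 * m * (y * B * (3 / 4)) := by ring
              _ ≤ 4 * m * (x * l) := mul_le_mul_of_nonneg_left h8 (by positivity)
              _ = 4 * (m * x) * l := by ring
              _ = l * n := by rw [h9]; ring
    have h10 : 1 / (q ^ n * (1 - y) ^ m) = Real.exp (l * n / B) * (1 / (1 - y)) ^ m := by
      rw [hqn, Real.exp_neg, one_div_pow, one_div, mul_inv, inv_inv, one_div]
    rw [h10]
    calc Real.exp (l * n / B) * (1 / (1 - y)) ^ m ≤ Real.exp (l * n / B) * Real.exp (l * n / B) :=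
          mul_le_mul_of_nonneg_left h4 (Real.exp_pos _).le
      _ = Real.exp (l * (2 * n / B)) := by
          rw [← Real.exp_add]
          congr 1
          ring
      _ = (4 * m / n : ℝ) ^ (2 * (n : ℝ) / B) := by
          rw [Real.rpow_def_of_pos (by linarith)]

theorem upper {n B m : ℕ} (hn : 0 < n) (hB : 0 < B) (hm : n ≤ m) :
    ∃ (T : ℕ) (W : Fin T → Sym2 (Fin (2 * n)) → ℕ), (∀ t e, W t e ≤ B) ∧
      (∀ G : SimpleGraph (Fin (2 * n)), G.edgeSet.ncard ≤ m → (∃ M, IsPM G M) → ∃ t, Isolates (W t) G) ∧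
      (T : ℝ) ≤ 1 + 2 * m * Real.log (2 * n) * (4 * m / n : ℝ) ^ (2 * (n : ℝ) / B) := by
  classical
  have : Fintype (SimpleGraph (Fin (2 * n))) := Fintype.ofFinite _
  set A : Finset (SimpleGraph (Fin (2 * n))) := univ.filter fun G => G.edgeSet.ncard ≤ m ∧ ∃ M, IsPM G M with hA
  have hn1 : (1 : ℝ) ≤ n := by exact_mod_cast hn
  have hlogn : 0 ≤ Real.log (2 * n) := Real.log_nonneg (by linarith)
  rcases A.eq_empty_or_nonempty with hAe | hAne
  · refine ⟨0, Fin.elim0, fun t => t.elim0, fun G hG hpm => ?_, ?_⟩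
    · have : G ∈ A := mem_filter.2 ⟨mem_univ _, hG, hpm⟩
      rw [hAe] at this
      simp at this
    · have : (0 : ℝ) ≤ 2 * m * Real.log (2 * n) * (4 * m / n : ℝ) ^ (2 * (n : ℝ) / B) := by positivity
      rw [Nat.cast_zero]
      linarith
  obtain ⟨q, y, hq0, hq1, hy0, hy1, hyZ, hfac⟩ := params hn hB hm
  obtain ⟨T, W, h1, h2, h3⟩ := upper_aux (V := Fin (2 * n)) (n := n) (B := B) (m := m) (Fintype.card_fin _) hq0
    hq1 hy0 hy1 hyZ A (fun G hG => (mem_filter.1 hG).2.1) (fun G hG => (mem_filter.1 hG).2.2) hAne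
  refine ⟨T, W, h1, fun G hG hpm => h2 G (mem_filter.2 ⟨mem_univ _, hG, hpm⟩), h3.trans ?_⟩
  have hlogA : Real.log A.card ≤ 2 * m * Real.log (2 * n) := by
    have h4 := card_graphs m A (fun G hG => (mem_filter.1 hG).2.1)
    have h5 : Fintype.card (Sym2 (Fin (2 * n))) + 1 ≤ (2 * n) ^ 2 := by
      rw [Sym2.card, Fintype.card_fin, Nat.choose_two_right]
      have : (2 * n + 1) * (2 * n + 1 - 1) = 2 * ((2 * n + 1) * n) := by
        rw [Nat.add_sub_cancel]; ring
      rw [this, Nat.mul_div_cancel_left _ (by norm_num)]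
      nlinarith
    have h6 : A.card ≤ ((2 * n) ^ 2) ^ m := h4.trans (Nat.pow_le_pow_left h5 m)
    have h7 : (A.card : ℝ) ≤ ((2 * n : ℝ) ^ 2) ^ m := by exact_mod_cast h6
    calc Real.log A.card ≤ Real.log (((2 * n : ℝ) ^ 2) ^ m) :=
          Real.log_le_log (by exact_mod_cast hAne.card_pos) h7
      _ = 2 * m * Real.log (2 * n) := by
          rw [Real.log_pow, Real.log_pow]
          push_cast
          ring
  have h1y : 0 < 1 - y := by linarith
  have h4 : Real.log A.card * (1 / (q ^ n * (1 - y) ^ m)) ≤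
      2 * m * Real.log (2 * n) * (4 * m / n : ℝ) ^ (2 * (n : ℝ) / B) :=
    mul_le_mul hlogA hfac (by positivity) (by positivity)
  linarith

end Pool.Agent.W2helper70.IW
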